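import Mathlib

/-! # The binary form `3 u² + 2 u v + 4 v²` and the ternary form `x² + 2 y² + 3 z²` -/

set_option autoImplicit false

namespace Pool.Agent.H45.B9

/-- the binary form `3 u² + 2 u v + 4 v²` of discriminant `-44` -/
def ff (u v : ℤ) : ℤ := 3 * u ^ 2 + 2 * u * v + 4 * v ^ 2

lemma three_ff (u v : ℤ) : 3 * ff u v = (3 * u + v) ^ 2 + 11 * v ^ 2 := by unfold ff; ring

lemma ff_comp (X Y u v : ℤ) : (X ^ 2 + 11 * Y ^ 2) * ff u v = ff ((X - Y) * u - 4 * Y * v) (3 * Y * u + (X + Y) * v) := by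
  unfold ff; ring

lemma ff_mul (a b c d : ℤ) : ff a b * ff c d =
    ff (a * c + 2 * (a * d + b * c)) (a * c - (a * d + b * c) - 2 * b * d) := by
  unfold ff; ring

lemma ff_pos {u v : ℤ} (h : ff u v ≠ 0) : 0 < ff u v := by
  have h3 := three_ff u v
  have : 0 ≤ (3 * u + v) ^ 2 + 11 * v ^ 2 := by positivity
  omega

/-- from the binary to the ternary form -/
theorem rep_of_ff (n s u v : ℤ) (h : 11 * n - 6 * s ^ 2 = ff u v) :
    ∃ x y z : ℤ, n = x ^ 2 + 2 * y ^ 2 + 3 * z ^ 2 ∧ x + y + z = s := by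
  have hp : Prime (11 : ℤ) := by norm_num
  have key : ∀ u v : ℤ, 11 * n - 6 * s ^ 2 = ff u v → (11 : ℤ) ∣ u + 4 * v - 3 * s →
      ∃ x y z : ℤ, n = x ^ 2 + 2 * y ^ 2 + 3 * z ^ 2 ∧ x + y + z = s := by
    intro u v h ⟨k, hk⟩
    have hu : u = 11 * k + 3 * s - 4 * v := by linarith
    refine ⟨s - (-k) - (3 * k + s - v), -k, 3 * k + s - v, ?_, by ring⟩
    subst hu
    unfold ff at h
    have : 11 * n = 11 * ((s - (-k) - (3 * k + s - v)) ^ 2 + 2 * (-k) ^ 2 + 3 * (3 * k + s - v) ^ 2) := by
      linear_combination h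
    linarith
  have h1 : (11 : ℤ) ∣ (u + 4 * v - 3 * s) * (u + 4 * v + 3 * s) := by
    have h2 : (11 : ℤ) ∣ 3 * ((u + 4 * v - 3 * s) * (u + 4 * v + 3 * s)) := by
      unfold ff at h
      refine ⟨n - 3 * s ^ 2 + 2 * u * v + 4 * v ^ 2, ?_⟩
      linear_combination (-1) * h
    rcases hp.dvd_or_dvd h2 with h3 | h3
    · norm_num at h3
    · exact h3
  rcases hp.dvd_or_dvd h1 with h2 | h2
  · exact key u v h h2
  · refine key (-u) (-v) (by rw [h]; unfold ff; ring) ?_
    have := (dvd_neg (a := (11 : ℤ))).2 h2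
    have e : -(u + 4 * v + 3 * s) = -u + 4 * -v - 3 * s := by ring
    rwa [e] at this

/-- reduction of forms of discriminant `-44` -/
theorem reduce (k : ℕ) : ∀ a b c : ℤ, b.natAbs ≤ k → 0 < a → 0 < c → a * c - b ^ 2 = 11 → ∀ x y : ℤ,
    ∃ X Y : ℤ, a * x ^ 2 + 2 * b * x * y + c * y ^ 2 = X ^ 2 + 11 * Y ^ 2 ∨
      a * x ^ 2 + 2 * b * x * y + c * y ^ 2 = 2 * X ^ 2 + 2 * X * Y + 6 * Y ^ 2 ∨
      a * x ^ 2 + 2 * b * x * y + c * y ^ 2 = ff X Y := by
  induction k with
  | zero =>
    intro a b c hb ha hc h x y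
    have hb0 : b = 0 := by omega
    subst hb0
    have h1 : a * c = 11 := by linarith
    have ha11 : a ≤ 11 := by nlinarith
    have : a = 1 ∨ a = 11 := by
      interval_cases a <;> omega
    rcases this with rfl | rfl
    · have : c = 11 := by linarith
      subst this
      exact ⟨x, y, Or.inl (by ring)⟩
    · have : c = 1 := by linarith
      subst this
      exact ⟨y, x, Or.inl (by ring)⟩
  | succ k ih =>
    intro a b c hb ha hc h x y
    by_cases h1 : a < 2 * |b|
    · rcases le_total 0 b with h0 | h0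
      · rw [abs_of_nonneg h0] at h1
        have hb' : (b - a).natAbs ≤ k := by omega
        have hc' : 0 < c - 2 * b + a := by nlinarith [sq_nonneg (a - b), sq_nonneg b]
        obtain ⟨X, Y, hXY⟩ := ih a (b - a) (c - 2 * b + a) hb' ha hc' (by linear_combination h) (x + y) y
        refine ⟨X, Y, ?_⟩
        have e : a * (x + y) ^ 2 + 2 * (b - a) * (x + y) * y + (c - 2 * b + a) * y ^ 2 =
          a * x ^ 2 + 2 * b * x * y + c * y ^ 2 := by ring
        rwa [e] at hXY
      · rw [abs_of_nonpos h0] at h1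
        have hb' : (b + a).natAbs ≤ k := by omega
        have hc' : 0 < c + 2 * b + a := by nlinarith [sq_nonneg (a + b), sq_nonneg b]
        obtain ⟨X, Y, hXY⟩ := ih a (b + a) (c + 2 * b + a) hb' ha hc' (by linear_combination h) (x - y) y
        refine ⟨X, Y, ?_⟩
        have e : a * (x - y) ^ 2 + 2 * (b + a) * (x - y) * y + (c + 2 * b + a) * y ^ 2 =
          a * x ^ 2 + 2 * b * x * y + c * y ^ 2 := by ring
        rwa [e] at hXY
    · by_cases h2 : c < 2 * |b|
      · rcases le_total 0 b with h0 | h0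
        · rw [abs_of_nonneg h0] at h2
          have hb' : (b - c).natAbs ≤ k := by omega
          have hc' : 0 < a - 2 * b + c := by nlinarith [sq_nonneg (c - b), sq_nonneg b]
          obtain ⟨X, Y, hXY⟩ := ih (a - 2 * b + c) (b - c) c hb' hc' hc (by linear_combination h) x (y + x)
          refine ⟨X, Y, ?_⟩
          have e : (a - 2 * b + c) * x ^ 2 + 2 * (b - c) * x * (y + x) + c * (y + x) ^ 2 =
            a * x ^ 2 + 2 * b * x * y + c * y ^ 2 := by ring
          rwa [e] at hXY
        · rw [abs_of_nonpos h0] at h2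
          have hb' : (b + c).natAbs ≤ k := by omega
          have hc' : 0 < a + 2 * b + c := by nlinarith [sq_nonneg (c + b), sq_nonneg b]
          obtain ⟨X, Y, hXY⟩ := ih (a + 2 * b + c) (b + c) c hb' hc' hc (by linear_combination h) x (y - x)
          refine ⟨X, Y, ?_⟩
          have e : (a + 2 * b + c) * x ^ 2 + 2 * (b + c) * x * (y - x) + c * (y - x) ^ 2 =
            a * x ^ 2 + 2 * b * x * y + c * y ^ 2 := by ring
          rwa [e] at hXY
      · push Not at h1 h2
        have h3 : |b| ≤ 1 := by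
          by_contra hcon
          push Not at hcon
          have h4 : 2 ≤ |b| := by omega
          have h5 : (2 * |b|) * (2 * |b|) ≤ a * c := mul_le_mul h1 h2 (by positivity) ha.le
          have h6 : |b| * |b| = b ^ 2 := by rw [← sq, sq_abs]
          nlinarith
        have h4 := abs_le.1 h3
        have hb1 : b = -1 ∨ b = 0 ∨ b = 1 := by omega
        have hca : a ≤ 12 := by nlinarith [sq_abs b, abs_nonneg b]
        rcases hb1 with rfl | rfl | rfl
        · have h5 : a * c = 12 := by linarith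
          have h6 : 2 ≤ a := by simpa using h1
          have h7 : 2 ≤ c := by simpa using h2
          have : a = 2 ∨ a = 3 ∨ a = 4 ∨ a = 6 := by
            interval_cases a <;> omega
          rcases this with rfl | rfl | rfl | rfl
          · have : c = 6 := by linarith
            subst this
            exact ⟨-x, y, Or.inr (Or.inl (by ring))⟩
          · have : c = 4 := by linarith
            subst this
            exact ⟨-x, y, Or.inr (Or.inr (by unfold ff; ring))⟩
          · have : c = 3 := by linarith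
            subst this
            exact ⟨-y, x, Or.inr (Or.inr (by unfold ff; ring))⟩
          · have : c = 2 := by linarith
            subst this
            exact ⟨-y, x, Or.inr (Or.inl (by ring))⟩
        · have h5 : a * c = 11 := by linarith
          have : a = 1 ∨ a = 11 := by
            interval_cases a <;> omega
          rcases this with rfl | rfl
          · have : c = 11 := by linarith
            subst this
            exact ⟨x, y, Or.inl (by ring)⟩
          · have : c = 1 := by linarith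
            subst this
            exact ⟨y, x, Or.inl (by ring)⟩
        · have h5 : a * c = 12 := by linarith
          have h6 : 2 ≤ a := by simpa using h1
          have h7 : 2 ≤ c := by simpa using h2
          have : a = 2 ∨ a = 3 ∨ a = 4 ∨ a = 6 := by
            interval_cases a <;> omega
          rcases this with rfl | rfl | rfl | rfl
          · have : c = 6 := by linarith
            subst this
            exact ⟨x, y, Or.inr (Or.inl (by ring))⟩
          · have : c = 4 := by linarith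
            subst this
            exact ⟨x, y, Or.inr (Or.inr (by unfold ff; ring))⟩
          · have : c = 3 := by linarith
            subst this
            exact ⟨y, x, Or.inr (Or.inr (by unfold ff; ring))⟩
          · have : c = 2 := by linarith
            subst this
            exact ⟨y, x, Or.inr (Or.inl (by ring))⟩

/-- primes dividing a value `r² + 11` -/
theorem prime_class (p : ℕ) (hp : p.Prime) (h2 : p ≠ 2) (r : ℤ) (hr : (p : ℤ) ∣ r ^ 2 + 11) :
    ∃ X Y : ℤ, (p : ℤ) = X ^ 2 + 11 * Y ^ 2 ∨ (p : ℤ) = ff X Y := by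
  obtain ⟨c, hc⟩ := hr
  have hp0 : (0 : ℤ) < p := by exact_mod_cast hp.pos
  have hc0 : 0 < c := by
    by_contra hcon
    push Not at hcon
    have : (p : ℤ) * c ≤ 0 := mul_nonpos_of_nonneg_of_nonpos hp0.le hcon
    nlinarith [sq_nonneg r]
  obtain ⟨X, Y, h⟩ := reduce r.natAbs p r c le_rfl hp0 hc0 (by linarith) 1 0
  have e : (p : ℤ) * 1 ^ 2 + 2 * r * 1 * 0 + c * 0 ^ 2 = p := by ring
  rw [e] at h
  rcases h with h | h | h
  · exact ⟨X, Y, Or.inl h⟩
  · exfalso
    have h3 : (2 : ℤ) ∣ p := ⟨X ^ 2 + X * Y + 3 * Y ^ 2, by rw [h]; ring⟩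
    have h4 : 2 ∣ p := by exact_mod_cast h3
    exact h2 ((Nat.prime_dvd_prime_iff_eq Nat.prime_two hp).1 h4).symm
  · exact ⟨X, Y, Or.inr h⟩

/-- quadratic reciprocity for `-11` -/
theorem qr11 (p : ℕ) (hp : p.Prime) (h2 : p ≠ 2) (h11 : p ≠ 11) (s : ℤ) (hs : (11 : ℤ) ∣ s ^ 2 - p) :
    ∃ r : ℤ, (p : ℤ) ∣ r ^ 2 + 11 := by
  have : Fact p.Prime := ⟨hp⟩
  have : Fact (Nat.Prime 11) := ⟨by norm_num⟩
  have h1 : IsSquare ((p : ℤ) : ZMod 11) := by
    refine ⟨(s : ZMod 11), ?_⟩
    have := (ZMod.intCast_zmod_eq_zero_iff_dvd (s ^ 2 - p) 11).2 (by exact_mod_cast hs)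
    push_cast at this ⊢
    linear_combination (-1) * this
  have hleg : legendreSym 11 p = 1 := by
    rw [legendreSym.eq_one_iff]
    · exact h1
    · intro h0
      have := (ZMod.intCast_zmod_eq_zero_iff_dvd (p : ℤ) 11).1 h0
      have h3 : 11 ∣ p := by exact_mod_cast this
      exact h11 ((Nat.prime_dvd_prime_iff_eq (by norm_num) hp).1 h3).symm
  have hneg : legendreSym p (-11) = 1 := by
    have e1 : legendreSym p (-11) = legendreSym p (-1) * legendreSym p 11 := by
      rw [← legendreSym.mul]; norm_num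
    have e2 := legendreSym.at_neg_one (p := p) h2
    have e3 := legendreSym.quadratic_reciprocity' (p := 11) (q := p) (by norm_num) h2
    have hodd : p % 2 = 1 := (hp.eq_two_or_odd).resolve_left h2
    push_cast at e3
    rw [e1, e2, e3, hleg, mul_one, ZMod.χ₄_nat_eq_if_mod_four]
    rw [if_neg (by omega)]
    have hp4 : p % 4 = 1 ∨ p % 4 = 3 := by omega
    rcases hp4 with h4 | h4
    · rw [if_pos h4]
      have : Even (11 / 2 * (p / 2)) := by
        rw [Nat.even_mul]; right
        rw [Nat.even_iff]; omega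
      rw [this.neg_one_pow]; norm_num
    · rw [if_neg (by omega)]
      have : Odd (11 / 2 * (p / 2)) := by
        rw [Nat.odd_mul]
        refine ⟨by decide, ?_⟩
        rw [Nat.odd_iff]; omega
      rw [this.neg_one_pow]; norm_num
  have h4 : ((-11 : ℤ) : ZMod p) ≠ 0 := by
    intro h0
    rw [legendreSym.eq_zero_iff .. |>.2 h0] at hneg
    norm_num at hneg
  obtain ⟨r, hr⟩ := (legendreSym.eq_one_iff p h4).1 hneg
  obtain ⟨r', hr'⟩ := ZMod.intCast_surjective r
  refine ⟨r', ?_⟩
  rw [← ZMod.intCast_zmod_eq_zero_iff_dvd]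
  push_cast
  rw [hr', sq, ← hr]
  push_cast
  ring

/-- the criterion used: `11 n - 6 m⁴` is a value of `ff` times a prime -/
theorem rep_main (n m a b : ℤ) (p : ℕ) (hp : p.Prime) (h2 : p ≠ 2) (h11 : ¬ (11 : ℤ) ∣ ff a b)
    (h : ff a b * p = 11 * n - 6 * m ^ 4) :
    ∃ x y z : ℤ, n = x ^ 2 + 2 * y ^ 2 + 3 * z ^ 2 ∧ x + y + z = m ^ 2 := by
  have hprime : Prime (11 : ℤ) := by norm_num
  have hcl : ∃ X Y : ℤ, (p : ℤ) = X ^ 2 + 11 * Y ^ 2 ∨ (p : ℤ) = ff X Y := by
    by_cases hp11 : p = 11
    · subst hp11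
      exact ⟨0, 1, Or.inl (by norm_num)⟩
    · -- `p` is a square modulo `11`
      have h3 : ∃ s : ℤ, (11 : ℤ) ∣ s ^ 2 - p := by
        -- `ff a b ≡ (5 (a + 4 b))²`
        have e1 : (11 : ℤ) ∣ (5 * (a + 4 * b)) ^ 2 - ff a b := by
          refine ⟨2 * a ^ 2 + 18 * a * b + 36 * b ^ 2, ?_⟩
          unfold ff; ring
        have hc : ¬ (11 : ℤ) ∣ 5 * (a + 4 * b) := by
          intro hd
          apply h11
          have := dvd_sub (Dvd.dvd.mul_right hd (5 * (a + 4 * b))) e1
          have e : 5 * (a + 4 * b) * (5 * (a + 4 * b)) - ((5 * (a + 4 * b)) ^ 2 - ff a b) = ff a b := by ring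
          rwa [e] at this
        obtain ⟨w, hw⟩ : ∃ w : ℤ, (11 : ℤ) ∣ 5 * (a + 4 * b) * w - 1 := by
          have hcop : IsCoprime (5 * (a + 4 * b)) (11 : ℤ) :=
            ((Prime.coprime_iff_not_dvd hprime).2 hc).symm
          obtain ⟨u, v, huv⟩ := hcop
          exact ⟨u, ⟨-v, by linarith⟩⟩
        refine ⟨4 * m ^ 2 * w, ?_⟩
        -- modulo 11: `p = (5c)^2 w^2 p = ff w² p = w² (-6 m⁴) = w² (4m²)²`
        obtain ⟨k1, hk1⟩ := e1
        obtain ⟨k2, hk2⟩ := hw
        set c := 5 * (a + 4 * b) with hcdef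
        refine ⟨-(w ^ 2 * (-2 * m ^ 4) + w ^ 2 * n) - w ^ 2 * k1 * p + p * (c * w + 1) * k2, ?_⟩
        have e2 : ff a b = c ^ 2 - 11 * k1 := by linarith
        rw [e2] at h
        have e3 : c * w = 1 + 11 * k2 := by linarith
        have e4 : (c * w) ^ 2 * p = (c * w) ^ 2 * p := rfl
        -- (4 m² w)² - p = 16 m⁴ w² - p
        -- w² * (c² p - 11 k1 p) = w² (11 n - 6 m⁴)
        have e5 : w ^ 2 * ((c ^ 2 - 11 * k1) * p) = w ^ 2 * (11 * n - 6 * m ^ 4) := by rw [h]
        have e6 : (c * w) ^ 2 * (p : ℤ) - p = p * (c * w + 1) * (11 * k2) := by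
          have : (11 : ℤ) * k2 = c * w - 1 := by linarith
          rw [this]; ring
        linear_combination (-1) * e5 + e6
      obtain ⟨s, hs⟩ := h3
      obtain ⟨r, hr⟩ := qr11 p hp h2 hp11 s hs
      exact prime_class p hp h2 r hr
  obtain ⟨X, Y, hXY⟩ := hcl
  have h6 : 11 * n - 6 * (m ^ 2) ^ 2 = ff a b * p := by rw [h]; ring
  rcases hXY with hXY | hXY
  · refine rep_of_ff n (m ^ 2) ((X - Y) * a - 4 * Y * b) (3 * Y * a + (X + Y) * b) ?_
    rw [h6, hXY, mul_comm, ff_comp]
  · rw [hXY, ff_mul] at h6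
    exact rep_of_ff n (m ^ 2) _ _ h6

end Pool.Agent.H45.B9
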