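import Mathlib
import Pool.Agent.H45.B9.Forms

/-! # Primes of the form `3 u² + 2 u v + 4 v²` -/

set_option autoImplicit false

namespace Pool.Agent.H45.B9

open Finset

/-- a prime of the form `X² + 11 Y²` can be divided out of the values of `ff` -/
theorem descent (q : ℕ) (hq : q.Prime) (X Y : ℤ) (hXY : (q : ℤ) = X ^ 2 + 11 * Y ^ 2) (u v : ℤ)
    (h : (q : ℤ) ∣ ff u v) : ∃ u' v' : ℤ, ff u v = q * ff u' v' := by
  have hqp : Prime (q : ℤ) := Nat.prime_iff_prime_int.1 hq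
  have hq3 : ¬ (q : ℤ) ∣ 3 := by
    intro hd
    have h1 : q ∣ 3 := by exact_mod_cast hd
    have h2 : q = 3 := (Nat.prime_dvd_prime_iff_eq hq (by norm_num)).1 h1
    subst h2
    have hY : Y = 0 := by
      by_contra hY
      have : 1 ≤ Y ^ 2 := by
        have := sq_pos_of_ne_zero hY
        omega
      push_cast at hXY
      nlinarith [sq_nonneg X]
    subst hY
    have hX : X ^ 2 = 3 := by push_cast at hXY; linarith
    have hX1 : X ≤ 1 := by nlinarith
    have hX2 : -1 ≤ X := by nlinarith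
    interval_cases X <;> omega
  have key : ∀ X Y : ℤ, (q : ℤ) = X ^ 2 + 11 * Y ^ 2 → (q : ℤ) ∣ X * v - Y * (3 * u + v) →
      ∃ u' v' : ℤ, ff u v = q * ff u' v' := by
    intro X Y hXY hd
    have h1 : (q : ℤ) ∣ (X * (3 * u + v) + 11 * Y * v) ^ 2 := by
      have e : (X * (3 * u + v) + 11 * Y * v) ^ 2 =
        (X ^ 2 + 11 * Y ^ 2) * (3 * ff u v) - (X * v - Y * (3 * u + v)) * (11 * (X * v - Y * (3 * u + v))) := by
        unfold ff; ring
      rw [e, ← hXY]
      exact dvd_sub (dvd_mul_right _ _) (Dvd.dvd.mul_right hd _)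
    have h2 := hqp.dvd_of_dvd_pow h1
    have h3 : (q : ℤ) ∣ 3 * ((X + Y) * u + 4 * Y * v) := by
      have e : 3 * ((X + Y) * u + 4 * Y * v) = (X * (3 * u + v) + 11 * Y * v) - (X * v - Y * (3 * u + v)) := by ring
      rw [e]
      exact dvd_sub h2 hd
    have h4 := (hqp.dvd_or_dvd h3).resolve_left hq3
    obtain ⟨s, hs⟩ := h4
    obtain ⟨t, ht⟩ := hd
    refine ⟨s, t, ?_⟩
    have hq0 : (q : ℤ) ≠ 0 := by exact_mod_cast hq.ne_zero
    have e1 : (X ^ 2 + 11 * Y ^ 2) * ff u v = ff ((X + Y) * u + 4 * Y * v) (X * v - Y * (3 * u + v)) := by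
      unfold ff; ring
    rw [hs, ht, ← hXY] at e1
    have e2 : ff (q * s) (q * t) = q * (q * ff s t) := by unfold ff; ring
    rw [e2] at e1
    exact mul_left_cancel₀ hq0 e1
  have h5 : (q : ℤ) ∣ (X * v - Y * (3 * u + v)) * (X * v + Y * (3 * u + v)) := by
    have e : (X * v - Y * (3 * u + v)) * (X * v + Y * (3 * u + v)) =
      (X ^ 2 + 11 * Y ^ 2) * v ^ 2 - ff u v * (3 * Y ^ 2) := by unfold ff; ring
    rw [e, ← hXY]
    exact dvd_sub (dvd_mul_right _ _) (Dvd.dvd.mul_right h _)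
  rcases hqp.dvd_or_dvd h5 with h6 | h6
  · exact key X Y hXY h6
  · refine key X (-Y) (by rw [hXY]; ring) ?_
    have e : X * v - -Y * (3 * u + v) = X * v + Y * (3 * u + v) := by ring
    rwa [e]

theorem no_principal (M : ℕ) : (∀ q : ℕ, q.Prime → q ∣ M → ∃ X Y : ℤ, (q : ℤ) = X ^ 2 + 11 * Y ^ 2) → 1 ≤ M →
    ∀ u v : ℤ, (M : ℤ) ≠ ff u v := by
  induction M using Nat.strong_induction_on with
  | _ M ih =>
    intro hM h1 u v h
    rcases Nat.lt_or_ge 1 M with h2 | h2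
    · obtain ⟨q, hq, hd⟩ := Nat.exists_prime_and_dvd (by omega : M ≠ 1)
      obtain ⟨X, Y, hXY⟩ := hM q hq hd
      have hdz : (q : ℤ) ∣ ff u v := by rw [← h]; exact_mod_cast hd
      obtain ⟨u', v', h'⟩ := descent q hq X Y hXY u v hdz
      obtain ⟨k, hk⟩ := hd
      have hk1 : 1 ≤ k := by
        rcases Nat.eq_zero_or_pos k with h0 | h0
        · rw [h0] at hk; omega
        · exact h0
      have hkM : k < M := by
        rw [hk]
        have := hq.two_le
        nlinarith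
      have hkf : (k : ℤ) = ff u' v' := by
        have hq0 : (q : ℤ) ≠ 0 := by exact_mod_cast hq.ne_zero
        apply mul_left_cancel₀ hq0
        rw [← h', ← h, hk]
        push_cast
        ring
      exact ih k hkM (fun r hr hrd => hM r hr (hk ▸ Dvd.dvd.mul_left hrd q)) hk1 u' v' hkf
    · have hM1 : M = 1 := by omega
      subst hM1
      have h3 := three_ff u v
      rw [← h] at h3
      have hv : v = 0 := by
        by_contra hv
        have : 1 ≤ v ^ 2 := by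
          have := sq_pos_of_ne_zero hv
          omega
        push_cast at h3
        nlinarith [sq_nonneg (3 * u + v)]
      subst hv
      push_cast at h3
      have h4 : 9 * u ^ 2 = 3 := by linarith
      omega

/-- primes of the form `ff` -/
def isF (p : ℕ) : Prop := p.Prime ∧ ∃ a b : ℤ, (p : ℤ) = ff a b

/-- product of the odd primes up to `w` -/
def WW (w : ℕ) : ℕ := ∏ p ∈ (Icc 3 w).filter Nat.Prime, p

lemma WW_dvd {w q : ℕ} (hq : q.Prime) (h2 : q ≠ 2) (hw : q ≤ w) : q ∣ WW w := by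
  unfold WW
  apply dvd_prod_of_mem (fun p => p)
  rw [mem_filter, mem_Icc]
  have := hq.two_le
  exact ⟨⟨by omega, hw⟩, hq⟩

lemma dvd_WW {w q : ℕ} (hq : q.Prime) (h : q ∣ WW w) : q ≤ w := by
  unfold WW at h
  obtain ⟨p, hp, hd⟩ := (Prime.dvd_finsetProd_iff hq.prime _).1 h
  rw [mem_filter, mem_Icc] at hp
  rw [(Nat.prime_dvd_prime_iff_eq hq hp.2).1 hd]
  exact hp.1.2

lemma WW_pos (w : ℕ) : 0 < WW w := by
  unfold WW
  apply prod_pos
  intro p hp
  exact (mem_filter.1 hp).2.pos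

lemma WW_odd (w : ℕ) : Odd (WW w) := by
  unfold WW
  apply Finset.prod_induction _ (fun n => Odd n) (fun a b ha hb => ha.mul hb) odd_one
  intro p hp
  rw [mem_filter, mem_Icc] at hp
  exact hp.2.odd_of_ne_two (by omega)

lemma WW_le (w : ℕ) : WW w ≤ 4 ^ w := by
  refine le_trans ?_ (primorial_le_four_pow w)
  unfold WW primorial
  apply prod_le_prod_of_subset_of_one_le'
  · intro p hp
    rw [mem_filter, mem_Icc] at hp
    rw [mem_filter, mem_range]
    exact ⟨by omega, hp.2⟩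
  · intro p hp _
    exact (mem_filter.1 hp).2.one_le

/-- each value at a multiple of `WW w` has a large prime factor of the form `ff` -/
lemma exists_F (w j : ℕ) (hj : Odd j) : ∃ p : ℕ, isF p ∧ w < p ∧
    p ∣ 3 * (WW w * j) ^ 2 + 2 * (WW w * j) + 4 := by
  set u := WW w * j with hu
  have hodd : Odd u := (WW_odd w).mul hj
  set M := 3 * u ^ 2 + 2 * u + 4 with hM
  have hMf : (M : ℤ) = ff u 1 := by rw [hM]; unfold ff; push_cast; ring
  have hcop : ∀ q : ℕ, q.Prime → q ∣ M → q ≠ 2 ∧ w < q := by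
    intro q hq hd
    have hq2 : q ≠ 2 := by
      rintro rfl
      have : Odd M := by
        rw [hM]
        obtain ⟨t, ht⟩ := hodd
        rw [ht]
        exact ⟨6 * t ^ 2 + 8 * t + 4, by ring⟩
      rw [Nat.odd_iff] at this
      omega
    refine ⟨hq2, ?_⟩
    by_contra hcon
    push Not at hcon
    have h1 : q ∣ u := Dvd.dvd.mul_right (WW_dvd hq hq2 hcon) j
    have h2 : q ∣ 3 * u ^ 2 + 2 * u := by
      have : 3 * u ^ 2 + 2 * u = u * (3 * u + 2) := by ring
      rw [this]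
      exact Dvd.dvd.mul_right h1 _
    have h3 : q ∣ 4 := (Nat.dvd_add_right h2).1 hd
    have h4 : q ∣ 2 := hq.dvd_of_dvd_pow (n := 2) (by norm_num; exact h3)
    exact hq2 ((Nat.prime_dvd_prime_iff_eq hq Nat.prime_two).1 h4)
  by_contra hcon
  push Not at hcon
  refine no_principal M ?_ (by rw [hM]; omega) u 1 hMf
  intro q hq hd
  obtain ⟨hq2, hwq⟩ := hcop q hq hd
  have h1 : (q : ℤ) ∣ (3 * (u : ℤ) + 1) ^ 2 + 11 := by
    have e := three_ff (u : ℤ) 1
    have : (q : ℤ) ∣ ff u 1 := by rw [← hMf]; exact_mod_cast hd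
    have h2 := Dvd.dvd.mul_left this 3
    rw [e] at h2
    simpa using h2
  obtain ⟨X, Y, h | h⟩ := prime_class q hq hq2 _ h1
  · exact ⟨X, Y, h⟩
  · exact absurd hd (hcon q ⟨hq, X, Y, h⟩ hwq)

open Classical in
/-- lower bound for the number of primes of the form `ff` -/
theorem count_F (w : ℕ) (hw : 3 ≤ w) : w ≤ 4 * ((Icc 1 (64 ^ w)).filter (fun p => w < p ∧ isF p)).card := by
  set T := (Icc 1 w).filter Odd with hT
  have hTc : w ≤ 2 * T.card := by
    have h1 : (Icc 0 ((w - 1) / 2)).image (fun i => 2 * i + 1) ⊆ T := by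
      intro n hn
      rw [mem_image] at hn
      obtain ⟨i, hi, rfl⟩ := hn
      rw [mem_Icc] at hi
      rw [hT, mem_filter, mem_Icc]
      exact ⟨by omega, ⟨i, rfl⟩⟩
    have h2 := card_le_card h1
    rw [card_image_of_injective _ (fun a b h => by simpa using h), Nat.card_Icc] at h2
    omega
  choose! P hP using fun j (hj : Odd j) => exists_F w j hj
  have hmaps : ∀ j ∈ T, P j ∈ (Icc 1 (64 ^ w)).filter (fun p => w < p ∧ isF p) := by
    intro j hj
    rw [hT, mem_filter, mem_Icc] at hj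
    obtain ⟨h1, h2, h3⟩ := hP j hj.2
    rw [mem_filter, mem_Icc]
    refine ⟨⟨h1.1.one_le, ?_⟩, h2, h1⟩
    refine (Nat.le_of_dvd (by omega) h3).trans ?_
    have hW := WW_le w
    have h4 : WW w * j ≤ 4 ^ w * w := Nat.mul_le_mul hW hj.1.2
    have h5 : ∀ n : ℕ, 3 ≤ n → 3 * n ^ 2 + 2 * n + 4 ≤ 4 ^ n := by
      intro n hn
      induction n, hn using Nat.le_induction with
      | base => norm_num
      | succ n hn ih =>
        rw [pow_succ 4 n]
        nlinarith
    have h6 := h5 w hw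
    have h7 : (64 : ℕ) ^ w = 4 ^ w * (4 ^ w) ^ 2 := by
      rw [show (64 : ℕ) = 4 ^ 3 by norm_num, ← pow_mul, ← pow_mul, ← pow_add]; congr 1; ring
    have h8 : 1 ≤ 4 ^ w := Nat.one_le_pow _ _ (by norm_num)
    rw [h7]
    calc 3 * (WW w * j) ^ 2 + 2 * (WW w * j) + 4 ≤ 3 * (4 ^ w * w) ^ 2 + 2 * (4 ^ w * w) + 4 := by gcongr
      _ ≤ (3 * w ^ 2 + 2 * w + 4) * (4 ^ w) ^ 2 := by nlinarith
      _ ≤ 4 ^ w * (4 ^ w) ^ 2 := Nat.mul_le_mul_right _ h6
  have hfib : ∀ p ∈ (Icc 1 (64 ^ w)).filter (fun p => w < p ∧ isF p), (T.filter (fun j => P j = p)).card ≤ 2 := by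
    intro p hp
    rw [mem_filter] at hp
    obtain ⟨-, hwp, hpF⟩ := hp
    by_contra hcon
    push Not at hcon
    obtain ⟨a, ha, b, hb, c, hc, hab, hac, hbc⟩ := two_lt_card.1 (by omega : 2 < (T.filter (fun j => P j = p)).card)
    rw [mem_filter, hT, mem_filter, mem_Icc] at ha hb hc
    have hpp : Prime (p : ℤ) := Nat.prime_iff_prime_int.1 hpF.1
    have hd : ∀ j, (j ∈ Icc 1 w ∧ Odd j) ∧ P j = p → (p : ℤ) ∣ 3 * ((WW w : ℤ) * j) ^ 2 + 2 * ((WW w : ℤ) * j) + 4 := by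
      intro j hj
      have := (hP j hj.1.2).2.2
      rw [hj.2] at this
      exact_mod_cast this
    have da := hd a ⟨⟨mem_Icc.2 ha.1.1, ha.1.2⟩, ha.2⟩
    have db := hd b ⟨⟨mem_Icc.2 hb.1.1, hb.1.2⟩, hb.2⟩
    have dc := hd c ⟨⟨mem_Icc.2 hc.1.1, hc.1.2⟩, hc.2⟩
    have hWp : ¬ (p : ℤ) ∣ (WW w : ℤ) := by
      intro h
      have h1 : p ∣ WW w := by exact_mod_cast h
      have := dvd_WW hpF.1 h1
      omega
    have hsub : ∀ i j : ℕ, i ∈ Icc 1 w → j ∈ Icc 1 w → i ≠ j → ¬ (p : ℤ) ∣ (i : ℤ) - j := by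
      intro i j hi hj hij h
      rw [mem_Icc] at hi hj
      have h3 : |(i : ℤ) - j| < p := by
        rw [abs_lt]
        constructor <;> omega
      have := Int.eq_zero_of_abs_lt_dvd h h3
      omega
    have h1 : (p : ℤ) ∣ 3 * ((WW w : ℤ) * (a + b)) + 2 := by
      have h2 : (p : ℤ) ∣ (WW w : ℤ) * ((a : ℤ) - b) * (3 * ((WW w : ℤ) * (a + b)) + 2) := by
        have := dvd_sub da db
        have e : 3 * ((WW w : ℤ) * a) ^ 2 + 2 * ((WW w : ℤ) * a) + 4 - (3 * ((WW w : ℤ) * b) ^ 2 + 2 * ((WW w : ℤ) * b) + 4) =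
          (WW w : ℤ) * ((a : ℤ) - b) * (3 * ((WW w : ℤ) * (a + b)) + 2) := by ring
        rwa [e] at this
      rcases hpp.dvd_or_dvd h2 with h3 | h3
      · rcases hpp.dvd_or_dvd h3 with h4 | h4
        · exact absurd h4 hWp
        · exact absurd h4 (hsub a b (mem_Icc.2 ha.1.1) (mem_Icc.2 hb.1.1) hab)
      · exact h3
    have h1' : (p : ℤ) ∣ 3 * ((WW w : ℤ) * (a + c)) + 2 := by
      have h2 : (p : ℤ) ∣ (WW w : ℤ) * ((a : ℤ) - c) * (3 * ((WW w : ℤ) * (a + c)) + 2) := by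
        have := dvd_sub da dc
        have e : 3 * ((WW w : ℤ) * a) ^ 2 + 2 * ((WW w : ℤ) * a) + 4 - (3 * ((WW w : ℤ) * c) ^ 2 + 2 * ((WW w : ℤ) * c) + 4) =
          (WW w : ℤ) * ((a : ℤ) - c) * (3 * ((WW w : ℤ) * (a + c)) + 2) := by ring
        rwa [e] at this
      rcases hpp.dvd_or_dvd h2 with h3 | h3
      · rcases hpp.dvd_or_dvd h3 with h4 | h4
        · exact absurd h4 hWp
        · exact absurd h4 (hsub a c (mem_Icc.2 ha.1.1) (mem_Icc.2 hc.1.1) hac)
      · exact h3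
    have h5 : (p : ℤ) ∣ 3 * ((WW w : ℤ) * ((b : ℤ) - c)) := by
      have := dvd_sub h1 h1'
      have e : 3 * ((WW w : ℤ) * ((a : ℤ) + b)) + 2 - (3 * ((WW w : ℤ) * (a + c)) + 2) = 3 * ((WW w : ℤ) * ((b : ℤ) - c)) := by ring
      rwa [e] at this
    rcases hpp.dvd_or_dvd h5 with h6 | h6
    · have h7 : p ∣ 3 := by exact_mod_cast h6
      have := Nat.le_of_dvd (by norm_num) h7
      omega
    · rcases hpp.dvd_or_dvd h6 with h7 | h7
      · exact hWp h7
      · exact hsub b c (mem_Icc.2 hb.1.1) (mem_Icc.2 hc.1.1) hbc h7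
  have := card_le_mul_card_image_of_maps_to hmaps 2 hfib
  omega

end Pool.Agent.H45.B9
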