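import Mathlib
import Pool.Agent.H45.B9.FPrimes
import Pool.Agent.H45.Lib.S8.H373R2.T7.Cnt

/-! # Almost all integers are covered -/

set_option autoImplicit false

namespace Pool.Agent.H45.B9

open Finset Polynomial Pool.Agent.H373R2.T7

/-- `11 n` is six times a nonzero fourth power modulo `p` -/
def Cov (p n : ℕ) : Prop := ∃ m : ℕ, 1 ≤ m ∧ m < p ∧ (p : ℤ) ∣ 11 * n - 6 * m ^ 4

lemma cov_mod (p n : ℕ) : Cov p n ↔ Cov p (n % p) := by
  have h1 : (n : ℤ) = ((n % p : ℕ) : ℤ) + p * ((n / p : ℕ) : ℤ) := by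
    exact_mod_cast (Nat.mod_add_div n p).symm
  unfold Cov
  constructor
  · rintro ⟨m, hm1, hm2, h⟩
    refine ⟨m, hm1, hm2, ?_⟩
    rw [h1] at h
    have h2 : (p : ℤ) ∣ p * (11 * ((n / p : ℕ) : ℤ)) := dvd_mul_right _ _
    have := dvd_sub h h2
    have e : 11 * (((n % p : ℕ) : ℤ) + p * ((n / p : ℕ) : ℤ)) - 6 * (m : ℤ) ^ 4 - p * (11 * ((n / p : ℕ) : ℤ)) =
      11 * ((n % p : ℕ) : ℤ) - 6 * (m : ℤ) ^ 4 := by ring
    rwa [e] at this
  · rintro ⟨m, hm1, hm2, h⟩
    refine ⟨m, hm1, hm2, ?_⟩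
    rw [h1]
    have h2 : (p : ℤ) ∣ p * (11 * ((n / p : ℕ) : ℤ)) := dvd_mul_right _ _
    have := dvd_add h h2
    have e : 11 * (((n % p : ℕ) : ℤ) + p * ((n / p : ℕ) : ℤ)) - 6 * (m : ℤ) ^ 4 =
      11 * ((n % p : ℕ) : ℤ) - 6 * (m : ℤ) ^ 4 + p * (11 * ((n / p : ℕ) : ℤ)) := by ring
    rwa [e]

open Classical in
lemma cov_card (p : ℕ) (hp : p.Prime) (h11 : 11 < p) : 5 * ((range p).filter (fun a => ¬ Cov p a)).card ≤ 4 * p := by
  have : Fact p.Prime := ⟨hp⟩
  have h11' : (11 : ZMod p) ≠ 0 := by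
    intro h
    have h2 : ((11 : ℕ) : ZMod p) = 0 := by exact_mod_cast h
    rw [ZMod.natCast_eq_zero_iff] at h2
    have := Nat.le_of_dvd (by norm_num) h2
    omega
  have h6' : (6 : ZMod p) ≠ 0 := by
    intro h
    have h2 : ((6 : ℕ) : ZMod p) = 0 := by exact_mod_cast h
    rw [ZMod.natCast_eq_zero_iff] at h2
    have := Nat.le_of_dvd (by norm_num) h2
    omega
  set g : ℕ → ℕ := fun m => ((11 : ZMod p)⁻¹ * 6 * (m : ZMod p) ^ 4).val with hg
  have hmaps : ∀ m ∈ Icc 1 (p - 1), g m ∈ (range p).filter (fun a => Cov p a) := by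
    intro m hm
    rw [mem_Icc] at hm
    rw [mem_filter, mem_range]
    refine ⟨ZMod.val_lt _, m, hm.1, by omega, ?_⟩
    rw [← ZMod.intCast_zmod_eq_zero_iff_dvd]
    rw [hg]
    push_cast
    rw [ZMod.natCast_val, ZMod.cast_id]
    field_simp
    ring
  have hfib : ∀ a ∈ (range p).filter (fun a => Cov p a), ((Icc 1 (p - 1)).filter (fun m => g m = a)).card ≤ 4 := by
    intro a _
    set P : (ZMod p)[X] := X ^ 4 - C ((6 : ZMod p)⁻¹ * 11 * (a : ZMod p)) with hP
    have hPd : P.natDegree = 4 := by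
      rw [hP]; exact natDegree_X_pow_sub_C
    have hP0 : P ≠ 0 := by
      intro h; rw [h, natDegree_zero] at hPd; omega
    have h1 : ((Icc 1 (p - 1)).filter (fun m => g m = a)).card ≤ P.roots.toFinset.card := by
      apply card_le_card_of_injOn (fun m : ℕ => (m : ZMod p))
      · intro m hm
        rw [mem_coe, mem_filter, mem_Icc] at hm
        rw [mem_coe, Multiset.mem_toFinset, mem_roots hP0, IsRoot.def, hP]
        have h2 : ((g m : ℕ) : ZMod p) = (a : ZMod p) := by rw [hm.2]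
        rw [hg] at h2
        simp only at h2
        rw [ZMod.natCast_val, ZMod.cast_id] at h2
        rw [← h2]
        simp only [eval_sub, eval_pow, eval_X, eval_C]
        field_simp
        ring
      · intro m hm m' hm' h
        rw [mem_coe, mem_filter, mem_Icc] at hm hm'
        simp only at h
        rw [ZMod.natCast_eq_natCast_iff'] at h
        rwa [Nat.mod_eq_of_lt (by omega), Nat.mod_eq_of_lt (by omega)] at h
    have h2 := (Multiset.toFinset_card_le P.roots).trans (P.card_roots')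
    rw [hPd] at h2
    exact h1.trans h2
  have h1 := card_le_mul_card_image_of_maps_to hmaps 4 hfib
  rw [Nat.card_Icc] at h1
  have h2 := card_filter_add_card_filter_not (s := range p) (fun a => Cov p a)
  rw [card_range] at h2
  omega

lemma ev_ll (C : ℝ) : ∃ N0 : ℕ, ∀ N : ℕ, N0 ≤ N → C * Real.log (Real.log N) ^ 2 ≤ Real.log N ∧ 1 ≤ Real.log (Real.log N) := by
  have hlim : Filter.Tendsto (fun N : ℕ => Real.log (N : ℝ)) Filter.atTop Filter.atTop :=
    Real.tendsto_log_atTop.comp (tendsto_natCast_atTop_atTop (R := ℝ))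
  have h3 := (Real.isLittleO_pow_log_id_atTop (n := 2)).bound (show (0 : ℝ) < 1 / (|C| + 1) by positivity)
  have h4 := hlim.eventually h3
  have h5 := (Real.tendsto_log_atTop.comp hlim).eventually_ge_atTop 1
  have h6 := hlim.eventually_ge_atTop 1
  obtain ⟨N0, hN0⟩ := Filter.eventually_atTop.1 ((h4.and h5).and h6)
  refine ⟨N0, fun N hN => ?_⟩
  obtain ⟨⟨h7, h8⟩, h9⟩ := hN0 N hN
  refine ⟨?_, h8⟩
  have hL0 : 0 < Real.log (N : ℝ) := by linarith
  simp only [id, Real.norm_eq_abs] at h7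
  rw [abs_of_pos hL0, abs_of_nonneg (by positivity)] at h7
  rw [one_div, inv_mul_eq_div, le_div_iff₀ (by positivity)] at h7
  have h10 : C ≤ |C| + 1 := (le_abs_self C).trans (by linarith)
  calc C * Real.log (Real.log N) ^ 2 ≤ (|C| + 1) * Real.log (Real.log N) ^ 2 :=
        mul_le_mul_of_nonneg_right h10 (by positivity)
    _ = Real.log (Real.log N) ^ 2 * (|C| + 1) := by ring
    _ ≤ _ := h7

open Classical in
theorem cover (U : ℕ) : ∃ c N0 : ℕ, ∀ N : ℕ, N0 ≤ N → ∃ S : Finset ℕ,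
    (∀ p ∈ S, isF p ∧ 11 < p ∧ (p : ℝ) ≤ Real.log N ^ c) ∧
    (((Icc 1 N).filter (fun n : ℕ => ∀ p ∈ S, ¬ Cov p n)).card : ℝ) ≤ N / Real.log N ^ U := by
  obtain ⟨c, hc⟩ : ∃ c : ℕ, c = 200 * (U + 1) := ⟨_, rfl⟩
  obtain ⟨n0, h0⟩ := ev_ll (c * (5 * (U + 1) + 1) + (U + 1))
  refine ⟨c, max n0 3, fun N hN => ?_⟩
  have a0 : n0 ≤ N := le_trans (le_max_left _ _) hN
  have a1 : 3 ≤ N := le_trans (le_max_right _ _) hN
  obtain ⟨h1, h2⟩ := h0 N a0
  have hNr : (3 : ℝ) ≤ N := by exact_mod_cast a1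
  have hN0 : (0 : ℝ) < N := by linarith
  obtain ⟨L, hL⟩ : ∃ L : ℝ, L = Real.log N := ⟨_, rfl⟩
  rw [← hL] at h1 h2 ⊢
  obtain ⟨l, hl⟩ : ∃ l : ℝ, l = Real.log L := ⟨_, rfl⟩
  rw [← hl] at h1 h2
  have hL0 : 0 < L := by rw [hL]; exact Real.log_pos (by linarith)
  have hLexp : L = Real.exp l := by rw [hl]; exact (Real.exp_log hL0).symm
  have hl0 : 0 < l := by linarith
  obtain ⟨k, hk⟩ : ∃ k : ℕ, k = ⌈5 * ((U : ℝ) + 1) * l⌉₊ := ⟨_, rfl⟩
  have hk1 : 5 * ((U : ℝ) + 1) * l ≤ k := by rw [hk]; exact Nat.le_ceil _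
  have hk2 : (k : ℝ) ≤ 5 * (U + 1) * l + 1 := by rw [hk]; exact (Nat.ceil_lt_add_one (by positivity)).le
  obtain ⟨w, hw⟩ : ∃ w : ℕ, w = 4 * k + 12 := ⟨_, rfl⟩
  have hcnt := count_F w (by omega)
  have hcnt' : k ≤ ((Icc 1 (64 ^ w)).filter (fun p => w < p ∧ isF p)).card := by omega
  obtain ⟨S, hSsub, hScard⟩ := exists_subset_card_eq hcnt'
  have hUr : (0 : ℝ) ≤ U := Nat.cast_nonneg _
  have hSp : ∀ p ∈ S, isF p ∧ 11 < p ∧ (p : ℝ) ≤ L ^ c := by
    intro p hp
    have h3 := hSsub hp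
    rw [mem_filter, mem_Icc] at h3
    refine ⟨h3.2.2, by omega, ?_⟩
    have h4 : (p : ℝ) ≤ (64 : ℝ) ^ w := by exact_mod_cast h3.1.2
    refine h4.trans ?_
    have h5 : (64 : ℝ) ^ w = Real.exp (Real.log 64 * w) := by
      rw [← Real.rpow_natCast, Real.rpow_def_of_pos (by norm_num)]
    have h6 : L ^ c = Real.exp (l * c) := by
      rw [hLexp, ← Real.exp_nat_mul]; congr 1; ring
    rw [h5, h6]
    apply Real.exp_le_exp.2
    have h7 : Real.log 64 ≤ 5 := by
      have : (64 : ℝ) = 2 ^ 6 := by norm_num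
      rw [this, Real.log_pow]
      have := Real.log_two_lt_d9
      push_cast
      linarith
    have h8 : Real.log 64 * w ≤ 5 * w := mul_le_mul_of_nonneg_right h7 (Nat.cast_nonneg _)
    refine h8.trans ?_
    rw [hw, hc]
    push_cast
    nlinarith
  refine ⟨S, hSp, ?_⟩
  have hcs := count_sys (fun p a => ¬ Cov p a) N S (fun p hp => (hSp p hp).1.1) 1 le_rfl
    (fun p hp hd => (hSp p hp).1.1.one_lt.ne' (Nat.dvd_one.1 hd)) 0
  have e1 : ((Icc 1 N).filter (fun n => n ≡ 0 [MOD 1] ∧ ∀ p ∈ S, ¬ Cov p (n % p))).card =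
      ((Icc 1 N).filter (fun n : ℕ => ∀ p ∈ S, ¬ Cov p n)).card := by
    congr 1
    apply filter_congr
    intro n _
    constructor
    · rintro ⟨_, h⟩ p hp
      rw [cov_mod]; exact h p hp
    · intro h
      refine ⟨Nat.modEq_one, fun p hp => ?_⟩
      rw [← cov_mod]; exact h p hp
  rw [e1] at hcs
  have hcs' := (abs_le.1 hcs).2
  rw [Nat.cast_one, div_one] at hcs'
  have hfac : ∏ p ∈ S, ((((range p).filter (fun a => ¬ Cov p a)).card : ℝ) / p) ≤ (4 / 5) ^ k := by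
    rw [← hScard, ← prod_const]
    apply prod_le_prod
    · intro p _
      exact div_nonneg (Nat.cast_nonneg _) (Nat.cast_nonneg _)
    · intro p hp
      have hp0 : (0 : ℝ) < p := by exact_mod_cast (hSp p hp).1.1.pos
      rw [div_le_iff₀ hp0]
      have h3 := cov_card p (hSp p hp).1.1 (hSp p hp).2.1
      have h4 : 5 * (((range p).filter (fun a => ¬ Cov p a)).card : ℝ) ≤ 4 * p := by exact_mod_cast h3
      linarith
  have hprod : ∏ p ∈ S, (((range p).filter (fun a => ¬ Cov p a)).card : ℝ) ≤ (L ^ c) ^ k := by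
    rw [← hScard, ← prod_const]
    apply prod_le_prod
    · intro p _
      exact Nat.cast_nonneg _
    · intro p hp
      refine le_trans ?_ (hSp p hp).2.2
      have : ((range p).filter (fun a => ¬ Cov p a)).card ≤ p := by
        simpa using card_filter_le (range p) (fun a => ¬ Cov p a)
      exact_mod_cast this
  -- numerical bounds
  have hg1 : ((4 : ℝ) / 5) ^ k ≤ 1 / (2 * L ^ U) := by
    have h3 : ((4 : ℝ) / 5) ^ k = Real.exp (Real.log (4 / 5) * k) := by
      rw [← Real.rpow_natCast, Real.rpow_def_of_pos (by norm_num)]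
    have h4 : 1 / (2 * L ^ U) = Real.exp (-(Real.log 2 + l * U)) := by
      have : L ^ U = Real.exp (l * U) := by rw [hLexp, ← Real.exp_nat_mul]; congr 1; ring
      rw [Real.exp_neg, Real.exp_add, Real.exp_log (by norm_num), this, one_div]
    rw [h3, h4]
    apply Real.exp_le_exp.2
    have h5 : Real.log (4 / 5) ≤ -(1 / 5) := by
      have := Real.log_le_sub_one_of_pos (show (0 : ℝ) < 4 / 5 by norm_num)
      linarith
    have h6 : Real.log (4 / 5) * k ≤ -(1 / 5) * k := mul_le_mul_of_nonneg_right h5 (Nat.cast_nonneg _)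
    have h7 := Real.log_two_lt_d9
    nlinarith
  have hg2 : (L ^ c) ^ k ≤ N / (2 * L ^ U) := by
    have h3 : (L ^ c) ^ k = Real.exp (l * c * k) := by
      rw [hLexp, ← Real.exp_nat_mul, ← Real.exp_nat_mul]; congr 1; ring
    have h4 : (N : ℝ) / (2 * L ^ U) = Real.exp (L - (Real.log 2 + l * U)) := by
      have : L ^ U = Real.exp (l * U) := by rw [hLexp, ← Real.exp_nat_mul]; congr 1; ring
      rw [Real.exp_sub, Real.exp_add, Real.exp_log (by norm_num : (0 : ℝ) < 2), this]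
      congr 1
      rw [hL, Real.exp_log hN0]
    rw [h3, h4]
    apply Real.exp_le_exp.2
    have h7 := Real.log_two_lt_d9
    have hcr : (0 : ℝ) ≤ c := Nat.cast_nonneg _
    have h8 : l * c * k ≤ l * c * (5 * (U + 1) * l + 1) := mul_le_mul_of_nonneg_left hk2 (by positivity)
    have h9 : l * c * (5 * ((U : ℝ) + 1) * l + 1) ≤ c * (5 * (U + 1) + 1) * l ^ 2 := by
      have hll : l ≤ l ^ 2 := by nlinarith
      have : (c : ℝ) * l ≤ c * l ^ 2 := mul_le_mul_of_nonneg_left hll hcr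
      linarith
    have h10 : Real.log 2 + l * U ≤ (U + 1) * l ^ 2 := by
      have hll : l ≤ l ^ 2 := by nlinarith
      have : (U : ℝ) * l ≤ U * l ^ 2 := mul_le_mul_of_nonneg_left hll hUr
      nlinarith
    linarith
  have h5 : (N : ℝ) * ∏ p ∈ S, ((((range p).filter (fun a => ¬ Cov p a)).card : ℝ) / p) ≤ N * (1 / (2 * L ^ U)) :=
    mul_le_mul_of_nonneg_left (hfac.trans hg1) hN0.le
  have h6 := hprod.trans hg2
  have h7 : (N : ℝ) / L ^ U = N * (1 / (2 * L ^ U)) + N / (2 * L ^ U) := by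
    field_simp; ring
  rw [h7]
  linarith

end Pool.Agent.H45.B9
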