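import Mathlib
import Pool.Agent.H45.Lib.S8.H373R2.T7.SysCount
import Pool.Agent.H45.Lib.S8.H373R2.T7.LamZ2
import Pool.Agent.H45.Lib.S8.H373R2.T7.BilLam

/-! # The model sum along a polynomial -/

set_option autoImplicit false

namespace Pool.Agent.H45.B9

open Finset Polynomial Pool.Agent.H373R2.T7

/-- for each prime `q` some value of `b - h` is not divisible by `q` -/
def LocOK (h : ℤ[X]) (b : ℤ) : Prop := ∀ q : ℕ, q.Prime → ∃ t : ℤ, ¬ (q : ℤ) ∣ b - h.eval t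

/-- the sieve conditions -/
def QB (h : ℤ[X]) (b : ℤ) (q m : ℕ) : Prop := (q : ℤ) ∣ b - h.eval (m : ℤ)

lemma dvd_eval_mod (h : ℤ[X]) (b : ℤ) (q m : ℕ) : (q : ℤ) ∣ b - h.eval (m : ℤ) ↔ (q : ℤ) ∣ b - h.eval ((m % q : ℕ) : ℤ) := by
  have h1 : (m : ℤ) - ((m % q : ℕ) : ℤ) = q * ((m / q : ℕ) : ℤ) := by
    have := Nat.mod_add_div m q
    have h2 : (m : ℤ) = ((m % q : ℕ) : ℤ) + q * ((m / q : ℕ) : ℤ) := by exact_mod_cast this.symm
    linarith
  have h2 : (q : ℤ) ∣ h.eval (m : ℤ) - h.eval ((m % q : ℕ) : ℤ) :=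
    (Dvd.intro _ h1.symm).trans (sub_dvd_eval_sub _ _ h)
  constructor
  · intro h3
    have := dvd_add h3 h2
    have e : b - h.eval (m : ℤ) + (h.eval (m : ℤ) - h.eval ((m % q : ℕ) : ℤ)) = b - h.eval ((m % q : ℕ) : ℤ) := by ring
    rwa [e] at this
  · intro h3
    have := dvd_sub h3 h2
    have e : b - h.eval ((m % q : ℕ) : ℤ) - (h.eval (m : ℤ) - h.eval ((m % q : ℕ) : ℤ)) = b - h.eval (m : ℤ) := by ring
    rwa [e] at this

lemma nu_lt (h : ℤ[X]) (b : ℤ) (hloc : LocOK h b) (q : ℕ) (hq : q.Prime) :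
    nuB (QB h b) q < q := by
  classical
  have hlt : ((range q).filter (fun r : ℕ => QB h b q r)).card < (range q).card := by
    apply card_lt_card
    rw [filter_ssubset]
    obtain ⟨t, ht⟩ := hloc q hq
    have hq0 : (q : ℤ) ≠ 0 := by exact_mod_cast hq.ne_zero
    have h1 : 0 ≤ t % q := Int.emod_nonneg t hq0
    have h2 : t % q < q := Int.emod_lt_of_pos t (by exact_mod_cast hq.pos)
    refine ⟨(t % q).toNat, ?_, ?_⟩
    · rw [mem_range]; omega
    · unfold QB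
      rw [Int.toNat_of_nonneg h1]
      intro h3
      apply ht
      have h4 : (q : ℤ) ∣ t - t % q := Int.dvd_self_sub_emod
      have h5 := h4.trans (sub_dvd_eval_sub t (t % q) h)
      have := dvd_sub h3 h5
      have e : b - h.eval (t % q) - (h.eval t - h.eval (t % q)) = b - h.eval t := by ring
      rwa [e] at this
  rw [card_range] at hlt
  exact hlt

lemma nu_le (h : ℤ[X]) (b : ℤ) (hloc : LocOK h b) (d : ℕ) (hd : h.natDegree ≤ d) (q : ℕ) (hq : q.Prime) :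
    nuB (QB h b) q ≤ d := by
  classical
  have : Fact q.Prime := ⟨hq⟩
  set P : (ZMod q)[X] := (C b - h).map (Int.castRingHom (ZMod q)) with hP
  have hP0 : P ≠ 0 := by
    intro h0
    obtain ⟨t, ht⟩ := hloc q hq
    apply ht
    rw [← ZMod.intCast_zmod_eq_zero_iff_dvd]
    have h1 : P.eval (t : ZMod q) = ((b - h.eval t : ℤ) : ZMod q) := by
      rw [hP]
      simp [eval_map, eval₂_at_intCast, Int.cast_sub]
    rw [← h1, h0, eval_zero]
  have hdeg : P.natDegree ≤ d := by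
    refine natDegree_map_le.trans ?_
    refine (natDegree_sub_le _ _).trans ?_
    rw [natDegree_C]
    simpa using hd
  have hcard : ((range q).filter (fun r : ℕ => QB h b q r)).card ≤ P.roots.toFinset.card := by
    apply card_le_card_of_injOn (fun r : ℕ => (r : ZMod q))
    · intro r hr
      rw [mem_coe, mem_filter, mem_range] at hr
      rw [mem_coe, Multiset.mem_toFinset, mem_roots hP0, IsRoot.def]
      have h1 : P.eval ((r : ℤ) : ZMod q) = ((b - h.eval (r : ℤ) : ℤ) : ZMod q) := by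
        rw [hP]
        simp [eval_map, eval₂_at_intCast, Int.cast_sub]
      have h2 := (ZMod.intCast_zmod_eq_zero_iff_dvd (b - h.eval (r : ℤ)) q).2 hr.2
      rw [h2] at h1
      simpa using h1
    · intro r hr s hs hrs
      rw [mem_coe, mem_filter, mem_range] at hr hs
      simp only at hrs
      rw [ZMod.natCast_eq_natCast_iff'] at hrs
      rwa [Nat.mod_eq_of_lt hr.1, Nat.mod_eq_of_lt hs.1] at hrs
  have h3 := (Multiset.toFinset_card_le P.roots).trans (P.card_roots' )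
  exact (hcard.trans h3).trans hdeg

lemma perB (h : ℤ[X]) (b : ℤ) (hloc : LocOK h b) (d : ℕ) (hd : h.natDegree ≤ d) :
    PerB (QB h b) d :=
  ⟨fun q m => dvd_eval_mod h b q m, fun q hq => nu_le h b hloc d hd q hq⟩

/-- one local factor -/
lemma fac_low (d q ν : ℕ) (hd : 1 ≤ d) (hq : 2 ≤ q) (h1 : ν ≤ d) (h2 : ν < q) :
    (if q ≤ 2 * d then 1 / (2 * (d : ℝ)) else 1) * (1 - 1 / (q : ℝ)) ^ (2 * d) ≤ 1 - (ν : ℝ) / q := by
  have hq0 : (2 : ℝ) ≤ q := by exact_mod_cast hq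
  have hqp : (0 : ℝ) < q := by linarith
  have hd1 : (1 : ℝ) ≤ d := by exact_mod_cast hd
  have h1q : 1 / (q : ℝ) ≤ 1 := by rw [div_le_one hqp]; linarith
  have hpos : 0 ≤ 1 - 1 / (q : ℝ) := by linarith
  have hle1 : 1 - 1 / (q : ℝ) ≤ 1 := by
    have : 0 < 1 / (q : ℝ) := by positivity
    linarith
  split_ifs with hc
  · have hc' : (q : ℝ) ≤ 2 * d := by exact_mod_cast hc
    have h3 : (1 - 1 / (q : ℝ)) ^ (2 * d) ≤ 1 := pow_le_one₀ hpos hle1
    have h4 : 1 / (2 * (d : ℝ)) ≤ 1 / q := one_div_le_one_div_of_le hqp hc'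
    have h5 : 1 / (q : ℝ) ≤ 1 - (ν : ℝ) / q := by
      rw [le_sub_iff_add_le, ← add_div, div_le_one hqp]
      have : (ν : ℝ) + 1 ≤ q := by exact_mod_cast h2
      linarith
    calc 1 / (2 * (d : ℝ)) * (1 - 1 / (q : ℝ)) ^ (2 * d) ≤ 1 / (2 * (d : ℝ)) * 1 :=
          mul_le_mul_of_nonneg_left h3 (by positivity)
      _ = 1 / (2 * (d : ℝ)) := mul_one _
      _ ≤ _ := h4.trans h5
  · push Not at hc
    rw [one_mul]
    have hc' : 2 * (d : ℝ) ≤ q := by exact_mod_cast hc.le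
    have h3 : 1 - (d : ℝ) / q ≤ 1 - (ν : ℝ) / q := by
      have : (ν : ℝ) / q ≤ d / q := div_le_div_of_nonneg_right (by exact_mod_cast h1) hqp.le
      linarith
    refine le_trans ?_ h3
    -- (1 - 1/q)^(2d) * (1 + 1/q)^(2d) ≤ 1 and (1+1/q)^(2d) ≥ 1 + 2d/q
    have hb : 1 + (2 * d : ℕ) * (1 / (q : ℝ)) ≤ (1 + 1 / (q : ℝ)) ^ (2 * d) :=
      one_add_mul_le_pow (by have : 0 < 1 / (q : ℝ) := by positivity
                             linarith) _
    push_cast at hb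
    have h4 : (1 - 1 / (q : ℝ)) ^ (2 * d) * (1 + 1 / (q : ℝ)) ^ (2 * d) ≤ 1 := by
      rw [← mul_pow]
      apply pow_le_one₀
      · have : 0 < 1 / (q : ℝ) := by positivity
        nlinarith
      · have : 0 < 1 / (q : ℝ) := by positivity
        nlinarith
    have hb0 : 0 < 1 + 2 * (d : ℝ) * (1 / q) := by positivity
    have h5 : (1 - 1 / (q : ℝ)) ^ (2 * d) * (1 + 2 * (d : ℝ) * (1 / q)) ≤ 1 :=
      (mul_le_mul_of_nonneg_left hb (by positivity)).trans h4
    have h6 : 1 ≤ (1 - (d : ℝ) / q) * (1 + 2 * (d : ℝ) * (1 / q)) := by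
      have e : (1 - (d : ℝ) / q) * (1 + 2 * (d : ℝ) * (1 / q)) = 1 + (d / q) * (1 - 2 * (d / q)) := by
        field_simp; ring
      rw [e]
      have h7 : 2 * ((d : ℝ) / q) ≤ 1 := by
        rw [← mul_div_assoc, div_le_one hqp]; exact hc'
      have h8 : 0 ≤ (d : ℝ) / q := by positivity
      nlinarith
    exact le_of_mul_le_mul_right (h5.trans h6) hb0

lemma prod_low (h : ℤ[X]) (b : ℤ) (hloc : LocOK h b) (d : ℕ) (hd1 : 1 ≤ d) (hd : h.natDegree ≤ d) (z : ℕ) :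
    (1 / (2 * (d : ℝ))) ^ (2 * d) * Vz z ^ (2 * d) ≤
      ∏ p ∈ pz z, (1 - (nuB (QB h b) p : ℝ) / p) := by
  classical
  have hdr : (1 : ℝ) ≤ d := by exact_mod_cast hd1
  have h1 : ∏ p ∈ pz z, ((if p ≤ 2 * d then 1 / (2 * (d : ℝ)) else 1) * (1 - 1 / (p : ℝ)) ^ (2 * d)) ≤
      ∏ p ∈ pz z, (1 - (nuB (QB h b) p : ℝ) / p) := by
    apply prod_le_prod
    · intro p hp
      have hp2 : (2 : ℝ) ≤ p := by exact_mod_cast (mem_pz.1 hp).2.two_le
      have : 1 / (p : ℝ) ≤ 1 := by rw [div_le_one (by linarith)]; linarith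
      have h2 : 0 ≤ 1 - 1 / (p : ℝ) := by linarith
      split_ifs <;> positivity
    · intro p hp
      have hpp := (mem_pz.1 hp).2
      exact fac_low d p _ hd1 hpp.two_le (nu_le h b hloc d hd p hpp) (nu_lt h b hloc p hpp)
  refine le_trans ?_ h1
  rw [prod_mul_distrib]
  have e : ∏ p ∈ pz z, (1 - 1 / (p : ℝ)) ^ (2 * d) = Vz z ^ (2 * d) := by
    unfold Vz
    rw [prod_pow]
  rw [e]
  apply mul_le_mul_of_nonneg_right _ (pow_nonneg (Vz_pos z).le _)
  rw [← prod_filter, prod_const]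
  apply pow_le_pow_of_le_one (by positivity)
  · rw [div_le_one (by positivity)]; linarith
  · have : (pz z).filter (fun p => p ≤ 2 * d) ⊆ Icc 1 (2 * d) := by
      intro p hp
      rw [mem_filter] at hp
      rw [mem_Icc]
      exact ⟨(mem_pz.1 hp.1).2.one_le, hp.2⟩
    simpa using card_le_card this

/-- lower bound for the model sum along a polynomial -/
theorem model_low (d E D : ℕ) (hd1 : 1 ≤ d) : ∃ N0 : ℕ, ∀ N : ℕ, N0 ≤ N → ∀ x : ℕ, N ≤ x ^ D → ∀ z : ℕ, 1 ≤ z →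
    (z : ℝ) ≤ Real.log N ^ E → ∀ h : ℤ[X], h.natDegree ≤ d → ∀ b : ℤ, LocOK h b →
    (∀ m ∈ Icc 1 x, h.eval (m : ℤ) < b) →
    (x : ℝ) / Real.log N ^ (2 * d + 1) ≤ ∑ m ∈ Icc 1 x, lamzI z (b - h.eval (m : ℤ)) := by
  classical
  set D1 := D + 1 with hD1
  obtain ⟨n0, h0⟩ := sys_count d (2 * E) (2 * d + 1) hd1
  obtain ⟨n1, h1⟩ := Vz_inv_small E
  obtain ⟨n2, h2⟩ := ev_L' (max (max ((D1 : ℝ) ^ 2) ((D1 : ℝ) * Real.log (n0 + 1)))
    (((D1 : ℝ) ^ (2 * d + 1) + 1) * (2 * (d : ℝ)) ^ (2 * d)))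
  refine ⟨max (max n1 n2) 3, fun N hN x hx z hz1 hz h hd b hloc hb => ?_⟩
  have a1 : n1 ≤ N := le_trans (le_trans (le_max_left _ _) (le_max_left _ _)) hN
  have a2 : n2 ≤ N := le_trans (le_trans (le_max_right _ _) (le_max_left _ _)) hN
  have a3 : 3 ≤ N := le_trans (le_max_right _ _) hN
  have hL := h2 N a2
  have hV := h1 N a1 z hz1 hz
  have hdr : (1 : ℝ) ≤ d := by exact_mod_cast hd1
  have hNr : (3 : ℝ) ≤ N := by exact_mod_cast a3
  have hN0 : (0 : ℝ) < N := by linarith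
  set L := Real.log N with hLdef
  have hD1r : (1 : ℝ) ≤ D1 := by rw [hD1]; push_cast; have : (0 : ℝ) ≤ D := Nat.cast_nonneg _
                                 linarith
  have hLa : (D1 : ℝ) ^ 2 ≤ L := ((le_max_left _ _).trans (le_max_left _ _)).trans hL
  have hLb : (D1 : ℝ) * Real.log (n0 + 1) ≤ L := ((le_max_right _ _).trans (le_max_left _ _)).trans hL
  have hLc : ((D1 : ℝ) ^ (2 * d + 1) + 1) * (2 * (d : ℝ)) ^ (2 * d) ≤ L := (le_max_right _ _).trans hL
  have hL1 : 1 ≤ L := le_trans (one_le_pow₀ hD1r) hLa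
  have hL0 : 0 < L := by linarith
  have hx1 : 1 ≤ x := by
    by_contra hc
    have hx0 : x = 0 := by omega
    subst hx0
    rcases Nat.eq_zero_or_pos D with hD0 | hD0
    · rw [hD0] at hx; simp at hx; omega
    · rw [zero_pow (by omega)] at hx; omega
  have hxr : (1 : ℝ) ≤ x := by exact_mod_cast hx1
  have hx0 : (0 : ℝ) < x := by linarith
  have hlx0 : 0 ≤ Real.log x := Real.log_nonneg hxr
  have hlx : L ≤ D1 * Real.log x := by
    have h3 : (N : ℝ) ≤ (x : ℝ) ^ D := by exact_mod_cast hx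
    have h4 := Real.log_le_log hN0 h3
    rw [Real.log_pow] at h4
    refine h4.trans ?_
    apply mul_le_mul_of_nonneg_right _ hlx0
    rw [hD1]; push_cast; linarith
  have hlx1 : (D1 : ℝ) ≤ Real.log x := by
    have : (D1 : ℝ) * D1 ≤ D1 * Real.log x := by
      rw [← sq]; exact hLa.trans hlx
    exact le_of_mul_le_mul_left this (by linarith)
  have hxn : n0 ≤ x := by
    have h3 : (D1 : ℝ) * Real.log (n0 + 1) ≤ D1 * Real.log x := hLb.trans hlx
    have h4 : Real.log (n0 + 1) ≤ Real.log x := le_of_mul_le_mul_left h3 (by linarith)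
    have h5 : ((n0 : ℝ) + 1) ≤ x := (Real.log_le_log_iff (by positivity) hx0).1 h4
    have : ((n0 + 1 : ℕ) : ℝ) ≤ x := by push_cast; exact h5
    have h6 : n0 + 1 ≤ x := by exact_mod_cast this
    omega
  have hlxpos : 0 < Real.log x := by linarith
  have hzx : (z : ℝ) ≤ Real.log x ^ (2 * E) := by
    refine hz.trans ?_
    rw [pow_mul]
    apply pow_le_pow_left₀ hL0.le
    refine hlx.trans ?_
    rw [sq]
    exact mul_le_mul_of_nonneg_right hlx1 hlx0
  have key := h0 x hxn z hz1 hzx _ (perB h b hloc d hd)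
  set Q : ℕ → ℕ → Prop := QB h b with hQ
  set S := (Icc 1 x).filter (fun m : ℕ => ∀ p ∈ pz z, ¬ Q p m) with hS
  have hprod := prod_low h b hloc d hd1 hd z
  have hVp := Vz_pos z
  have hS1 : (x : ℝ) * ∏ p ∈ pz z, (1 - (nuB Q p : ℝ) / p) - x / Real.log x ^ (2 * d + 1) ≤ S.card := by
    have := (abs_le.1 key).1
    linarith
  -- the sum
  have hsum : (S.card : ℝ) ≤ ∑ m ∈ Icc 1 x, lamzI z (b - h.eval (m : ℤ)) := by
    have e1 : ∑ m ∈ S, (1 : ℝ) ≤ ∑ m ∈ S, lamzI z (b - h.eval (m : ℤ)) := by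
      apply sum_le_sum
      intro m hm
      rw [hS, mem_filter] at hm
      have h5 := hb m hm.1
      unfold lamzI
      rw [if_pos (by omega)]
      unfold lamz
      rw [if_pos]
      · exact (one_le_inv₀ hVp).2 (Vz_le_one z)
      · intro p hp hd
        apply hm.2 p hp
        rw [hQ]
        unfold QB
        have h7 : ((b - h.eval (m : ℤ)).toNat : ℤ) = b - h.eval (m : ℤ) := Int.toNat_of_nonneg (by omega)
        rw [← h7]
        exact_mod_cast hd
    rw [sum_const, nsmul_eq_mul, mul_one] at e1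
    refine e1.trans ?_
    exact sum_le_sum_of_subset_of_nonneg (filter_subset _ _) (fun m _ _ => lamzI_nonneg z _)
  refine le_trans ?_ (hS1.trans hsum)
  -- numerical comparison
  have hVL : 1 / L ≤ Vz z := by
    rw [div_le_iff₀ hL0]
    have := mul_le_mul_of_nonneg_left hV hVp.le
    rwa [mul_inv_cancel₀ hVp.ne'] at this
  have hV2 : 1 / L ^ (2 * d) ≤ Vz z ^ (2 * d) := by
    rw [← one_div_pow]
    exact pow_le_pow_left₀ (by positivity) hVL _
  have hP1 : (1 / (2 * (d : ℝ))) ^ (2 * d) * (1 / L ^ (2 * d)) ≤ ∏ p ∈ pz z, (1 - (nuB Q p : ℝ) / p) :=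
    (mul_le_mul_of_nonneg_left hV2 (by positivity)).trans hprod
  have hx2 : (x : ℝ) / Real.log x ^ (2 * d + 1) ≤ x * (D1 : ℝ) ^ (2 * d + 1) / L ^ (2 * d + 1) := by
    rw [div_le_div_iff₀ (by positivity) (by positivity)]
    have : L ^ (2 * d + 1) ≤ (D1 * Real.log x) ^ (2 * d + 1) := pow_le_pow_left₀ hL0.le hlx _
    rw [mul_pow] at this
    calc (x : ℝ) * L ^ (2 * d + 1) ≤ x * ((D1 : ℝ) ^ (2 * d + 1) * Real.log x ^ (2 * d + 1)) :=
          mul_le_mul_of_nonneg_left this hx0.le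
      _ = _ := by ring
  have hmain : (x : ℝ) / L ^ (2 * d + 1) + x * (D1 : ℝ) ^ (2 * d + 1) / L ^ (2 * d + 1) ≤
      x * ((1 / (2 * (d : ℝ))) ^ (2 * d) * (1 / L ^ (2 * d))) := by
    have e1 : (x : ℝ) / L ^ (2 * d + 1) + x * (D1 : ℝ) ^ (2 * d + 1) / L ^ (2 * d + 1) =
      x / L ^ (2 * d) * (((D1 : ℝ) ^ (2 * d + 1) + 1) / L) := by
      rw [pow_succ]; field_simp; ring
    have e2 : x * ((1 / (2 * (d : ℝ))) ^ (2 * d) * (1 / L ^ (2 * d))) =
      x / L ^ (2 * d) * (1 / (2 * (d : ℝ)) ^ (2 * d)) := by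
      rw [one_div_pow]; field_simp
    rw [e1, e2]
    apply mul_le_mul_of_nonneg_left _ (by positivity)
    rw [div_le_div_iff₀ hL0 (by positivity), one_mul]
    exact hLc
  have hfin := mul_le_mul_of_nonneg_left hP1 hx0.le
  linarith

end Pool.Agent.H45.B9
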