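import Mathlib
import Pool.Agent.H45.Lib.S8.H560R3.GB.LamE
import Pool.Agent.H45.B9.Model

/-! # Almost all integers of a range are a prime plus a value of a polynomial, uniformly -/

set_option autoImplicit false

namespace Pool.Agent.H45.B9

open Finset Polynomial Pool.Agent.H373R2.T7

lemma energy_neg (p x : ℕ) (s : ℕ → ℤ) : energy p x (fun m => -s m) = energy p x s := by
  unfold energy
  congr 1
  apply filter_congr
  intro q _
  rw [sum_neg_distrib, sum_neg_distrib]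
  exact neg_inj

/-- the contribution of the proper prime powers -/
lemma pp_le (x N M : ℕ) (hM : 1 ≤ M) (h : ℤ[X]) (hb : ∀ m ∈ Icc 1 x, |h.eval (m : ℤ)| + N ≤ M)
    (S : Finset ℕ) (hS : S ⊆ Icc 1 N) (hnp : ∀ b ∈ S, ∀ m ∈ Icc 1 x, ∀ p : ℕ, p.Prime → (b : ℤ) - h.eval (m : ℤ) ≠ p) :
    ∑ b ∈ S, ∑ m ∈ Icc 1 x, lamI ((b : ℤ) - h.eval (m : ℤ)) ≤ x * (2 * √(M : ℝ) * Real.log M) := by
  classical
  rw [sum_comm]
  have h1 : ∀ m ∈ Icc 1 x, ∑ b ∈ S, lamI ((b : ℤ) - h.eval (m : ℤ)) ≤ 2 * √(M : ℝ) * Real.log M := by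
    intro m hm
    have hbm := hb m hm
    have h2 := Chebyshev.psi_sub_theta_le (x := (M : ℝ)) (by exact_mod_cast hM)
    rw [Chebyshev.psi_sub_theta_eq_sum_not_prime, Nat.floor_natCast] at h2
    refine le_trans ?_ h2
    set S' := S.filter (fun b : ℕ => 1 ≤ (b : ℤ) - h.eval (m : ℤ)) with hS'
    have h3 : ∑ b ∈ S, lamI ((b : ℤ) - h.eval (m : ℤ)) = ∑ b ∈ S', lamI ((b : ℤ) - h.eval (m : ℤ)) := by
      symm
      apply sum_subset (filter_subset _ _)
      intro b hb hb'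
      have : ¬ (1 ≤ (b : ℤ) - h.eval (m : ℤ)) := fun h => hb' (mem_filter.2 ⟨hb, h⟩)
      unfold lamI
      rw [if_neg this]
    rw [h3]
    have hinj : Set.InjOn (fun b : ℕ => ((b : ℤ) - h.eval (m : ℤ)).toNat) (S' : Set ℕ) := by
      intro a ha b hb hab
      rw [mem_coe, hS', mem_filter] at ha hb
      simp only at hab
      have h4 : (((a : ℤ) - h.eval (m : ℤ)).toNat : ℤ) = (((b : ℤ) - h.eval (m : ℤ)).toNat : ℤ) := by rw [hab]
      rw [Int.toNat_of_nonneg (by linarith [ha.2]), Int.toNat_of_nonneg (by linarith [hb.2])] at h4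
      have : (a : ℤ) = b := by linarith
      exact_mod_cast this
    have h5 : ∑ b ∈ S', lamI ((b : ℤ) - h.eval (m : ℤ)) =
        ∑ n ∈ S'.image (fun b : ℕ => ((b : ℤ) - h.eval (m : ℤ)).toNat), ArithmeticFunction.vonMangoldt n := by
      rw [sum_image hinj]
      apply sum_congr rfl
      intro b hb
      rw [hS', mem_filter] at hb
      unfold lamI
      rw [if_pos hb.2]
    rw [h5]
    apply sum_le_sum_of_subset_of_nonneg
    · intro n hn
      rw [mem_image] at hn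
      obtain ⟨b, hb, rfl⟩ := hn
      rw [hS', mem_filter] at hb
      have hbN := mem_Icc.1 (hS hb.1)
      have h6 : (((b : ℤ) - h.eval (m : ℤ)).toNat : ℤ) = (b : ℤ) - h.eval (m : ℤ) := Int.toNat_of_nonneg (by linarith [hb.2])
      rw [mem_filter, mem_Ioc]
      refine ⟨⟨by omega, ?_⟩, ?_⟩
      · have h7 : (b : ℤ) ≤ N := by exact_mod_cast hbN.2
        have h8 := neg_abs_le (h.eval (m : ℤ))
        omega
      · intro hp
        exact hnp b hb.1 m hm _ hp h6.symm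
    · intro n _ _
      exact ArithmeticFunction.vonMangoldt_nonneg
  refine (sum_le_sum h1).trans ?_
  rw [sum_const, Nat.card_Icc, nsmul_eq_mul]
  simp

/-- exceptional integers -/
def Exc (h : ℤ[X]) (x A0 b : ℕ) : Prop := A0 ≤ b ∧ LocOK h b ∧ ∀ m ∈ Icc 1 x, ∀ q : ℕ, q.Prime →
      (b : ℤ) - h.eval (m : ℤ) ≠ q

open Classical in
set_option maxHeartbeats 1000000 in
/-- the number of exceptions -/
theorem dhu (p d B C U D : ℕ) (hd1 : 1 ≤ d) : ∃ N0 : ℕ, ∀ N : ℕ, N0 ≤ N → ∀ (x : ℕ) (h : ℤ[X]), h.natDegree ≤ d →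
    N ≤ x ^ D → (∀ m ∈ Icc 1 x, |h.eval (m : ℤ)| ≤ B * N) →
    (energy p x (fun m => h.eval (m : ℤ)) : ℝ) * N ≤ Real.log N ^ C * (x : ℝ) ^ (2 * p) →
    ∀ A0 : ℕ, (∀ m ∈ Icc 1 x, h.eval (m : ℤ) < A0) →
    (((Icc 1 N).filter (fun b : ℕ => Exc h x A0 b)).card : ℝ) ≤ N / Real.log N ^ U := by
  set U2 := U + 2 * d + 2 with hU2
  obtain ⟨B0, hB0⟩ := Pool.Agent.H560R3.GB.lam_e p (B + 1) C U2
  obtain ⟨n0, h0⟩ := hB0 (B0 + 1)
  obtain ⟨n1, h1⟩ := model_low d (B0 + 1) D hd1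
  obtain ⟨n2, h2⟩ := ev_L' (max 2 (Real.log (B + 1)))
  obtain ⟨n3, h3⟩ := ev_log' (U2 + 1) (4 * (B + 1))
  refine ⟨max (max n0 n1) (max n2 (max n3 3)), fun N hN x h hd hx hb hE A0 hA0 => ?_⟩
  have a0 : n0 ≤ N := le_trans (le_trans (le_max_left _ _) (le_max_left _ _)) hN
  have a1 : n1 ≤ N := le_trans (le_trans (le_max_right _ _) (le_max_left _ _)) hN
  have a2 : n2 ≤ N := le_trans (le_trans (le_max_left _ _) (le_max_right _ _)) hN
  have a3 : n3 ≤ N := le_trans (le_trans (le_max_left _ _) (le_trans (le_max_right _ _) (le_max_right _ _))) hN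
  have a4 : 3 ≤ N := le_trans (le_trans (le_max_right _ _) (le_trans (le_max_right _ _) (le_max_right _ _))) hN
  have hL := h2 N a2
  have hsq := h3 N a3
  have hNr : (3 : ℝ) ≤ N := by exact_mod_cast a4
  have hN0 : (0 : ℝ) < N := by linarith
  set L := Real.log N with hLdef
  have hL2 : 2 ≤ L := (le_max_left _ _).trans hL
  have hLB : Real.log (B + 1) ≤ L := (le_max_right _ _).trans hL
  have hL0 : 0 < L := by linarith
  have hL1 : 1 ≤ L := by linarith
  have hx1 : 1 ≤ x := by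
    by_contra hc
    have hx0 : x = 0 := by omega
    subst hx0
    rcases Nat.eq_zero_or_pos D with hD0 | hD0
    · rw [hD0] at hx; simp at hx; omega
    · rw [zero_pow (by omega)] at hx; omega
  have hxr : (1 : ℝ) ≤ x := by exact_mod_cast hx1
  have hx0 : (0 : ℝ) < x := by linarith
  -- the parameter
  set z := ⌈L ^ B0⌉₊ with hz
  have hLB0 : 1 ≤ L ^ B0 := one_le_pow₀ hL1
  have hzlo : L ^ B0 ≤ z := Nat.le_ceil _
  have hzhi : (z : ℝ) ≤ L ^ (B0 + 1) := by
    have := Nat.ceil_lt_add_one (show 0 ≤ L ^ B0 by positivity)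
    calc (z : ℝ) ≤ L ^ B0 + 1 := this.le
      _ ≤ L ^ B0 + L ^ B0 := by linarith
      _ = 2 * L ^ B0 := by ring
      _ ≤ L * L ^ B0 := mul_le_mul_of_nonneg_right (by linarith) (by positivity)
      _ = L ^ (B0 + 1) := by ring
  have hz1 : 1 ≤ z := by
    have : (1 : ℝ) ≤ z := hLB0.trans hzlo
    exact_mod_cast this
  -- the discrepancy
  set Dl : ℕ → ℤ → ℝ := fun b m => lamI ((b : ℤ) - h.eval m) - lamzI z ((b : ℤ) - h.eval m) with hDl
  set Ds : ℕ → ℝ := fun b => ∑ m ∈ Icc 1 x, Dl b m with hDs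
  set G : ℕ → ℝ := fun b => SignType.sign (Ds b) with hG
  have hG1 : ∀ b, |G b| ≤ 1 := by
    intro b
    rw [hG]
    simp only
    rcases lt_trichotomy (Ds b) 0 with hs | hs | hs
    · rw [sign_neg hs]; simp
    · rw [hs]; simp
    · rw [sign_pos hs]; simp
  have hGD : ∀ b, G b * Ds b = |Ds b| := by
    intro b
    rw [hG]
    simp only
    rw [mul_comm]
    exact self_mul_sign (Ds b)
  have key := h0 N a0 x (fun m => -h.eval (m : ℤ)) (by
    intro m hm
    rw [abs_neg]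
    refine (hb m hm).trans ?_
    push_cast
    nlinarith [Nat.cast_nonneg (α := ℤ) N]) (by
    rw [energy_neg p x (fun m => h.eval (m : ℤ))]
    exact hE) N (Nat.le_mul_of_pos_left _ (by omega)) z hzlo hzhi (fun b => ((G b : ℝ) : ℂ)) (by
      intro b
      rw [Complex.norm_real]
      exact hG1 b)
  have hsumD : ∑ b ∈ Icc 1 N, |Ds b| ≤ N * x / L ^ U2 := by
    have e1 : ∑ b ∈ Icc 1 N, |Ds b| = ∑ m ∈ Icc 1 x, ∑ b ∈ Icc 1 N, G b * Dl b m := by
      rw [sum_comm]
      apply sum_congr rfl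
      intro b _
      rw [← hGD b, hDs, mul_sum]
    rw [e1]
    refine le_trans ?_ key
    apply sum_le_sum
    intro m _
    refine (le_abs_self _).trans ?_
    rw [← Real.norm_eq_abs, ← Complex.norm_real]
    apply le_of_eq
    congr 1
    rw [Complex.ofReal_sum]
    apply sum_congr rfl
    intro b _
    rw [hDl]
    simp only
    rw [Complex.ofReal_mul, sub_eq_add_neg (b : ℤ) (h.eval (m : ℤ))]
  -- the set of exceptions
  set S := (Icc 1 N).filter (fun b : ℕ => Exc h x A0 b) with hS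
  have hSsub : S ⊆ Icc 1 N := filter_subset _ _
  have hmod : ∀ b ∈ S, (x : ℝ) / L ^ (2 * d + 1) ≤ ∑ m ∈ Icc 1 x, lamzI z ((b : ℤ) - h.eval (m : ℤ)) := by
    intro b hbS
    rw [hS, mem_filter] at hbS
    refine h1 N a1 x hx z hz1 hzhi h hd b hbS.2.2.1 (fun m hm => ?_)
    have := hA0 m hm
    have h5 : (A0 : ℤ) ≤ b := by exact_mod_cast hbS.2.1
    linarith
  have hpp := pp_le x N ((B + 1) * N) (by
      have : 1 * 1 ≤ (B + 1) * N := Nat.mul_le_mul (by omega) (by omega)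
      omega) h (by
    intro m hm
    have := hb m hm
    push_cast
    linarith) S hSsub (by
    intro b hbS
    rw [hS, mem_filter] at hbS
    exact hbS.2.2.2)
  have hcard := card_nsmul_le_sum S _ _ hmod
  rw [nsmul_eq_mul] at hcard
  have hsplit : ∑ b ∈ S, ∑ m ∈ Icc 1 x, lamzI z ((b : ℤ) - h.eval (m : ℤ)) ≤
      ∑ b ∈ S, ∑ m ∈ Icc 1 x, lamI ((b : ℤ) - h.eval (m : ℤ)) + ∑ b ∈ Icc 1 N, |Ds b| := by
    have e1 : ∑ b ∈ S, |Ds b| ≤ ∑ b ∈ Icc 1 N, |Ds b| :=
      sum_le_sum_of_subset_of_nonneg hSsub (fun _ _ _ => abs_nonneg _)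
    refine le_trans ?_ (add_le_add le_rfl e1)
    rw [← sum_add_distrib]
    apply sum_le_sum
    intro b _
    have e2 : Ds b = ∑ m ∈ Icc 1 x, lamI ((b : ℤ) - h.eval (m : ℤ)) - ∑ m ∈ Icc 1 x, lamzI z ((b : ℤ) - h.eval (m : ℤ)) := by
      rw [hDs, hDl]
      simp only
      rw [sum_sub_distrib]
    have := neg_abs_le (Ds b)
    linarith
  -- the size of the prime power term
  have hppN : (x : ℝ) * (2 * √(((B + 1) * N : ℕ) : ℝ) * Real.log ((B + 1) * N : ℕ)) ≤ N * x / L ^ U2 := by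
    have hB1 : (1 : ℝ) ≤ (B : ℝ) + 1 := by have : (0 : ℝ) ≤ B := Nat.cast_nonneg _
                                           linarith
    have e1 : Real.log ((B + 1) * N : ℕ) ≤ 2 * L := by
      push_cast
      rw [Real.log_mul (by positivity) hN0.ne']
      linarith
    have e2 : √(((B + 1) * N : ℕ) : ℝ) ≤ (B + 1) * √(N : ℝ) := by
      push_cast
      rw [Real.sqrt_mul (by positivity)]
      apply mul_le_mul_of_nonneg_right _ (Real.sqrt_nonneg _)
      rw [Real.sqrt_le_left (by positivity)]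
      nlinarith
    have hs0 : 0 ≤ √(N : ℝ) := Real.sqrt_nonneg _
    have hss : √(N : ℝ) * √(N : ℝ) = N := Real.mul_self_sqrt hN0.le
    have e3 : 2 * √(((B + 1) * N : ℕ) : ℝ) * Real.log ((B + 1) * N : ℕ) ≤ 4 * (B + 1) * √(N : ℝ) * L := by
      calc 2 * √(((B + 1) * N : ℕ) : ℝ) * Real.log ((B + 1) * N : ℕ) ≤ 2 * ((B + 1) * √(N : ℝ)) * (2 * L) := by
            apply mul_le_mul _ e1
            · apply Real.log_nonneg
              push_cast
              nlinarith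
            · positivity
            · linarith
        _ = _ := by ring
    have e4 : 4 * (B + 1) * √(N : ℝ) * L ≤ N / L ^ U2 := by
      rw [le_div_iff₀ (by positivity)]
      calc 4 * ((B : ℝ) + 1) * √(N : ℝ) * L * L ^ U2 = √(N : ℝ) * (4 * (B + 1) * L ^ (U2 + 1)) := by ring
        _ ≤ √(N : ℝ) * √(N : ℝ) := mul_le_mul_of_nonneg_left hsq hs0
        _ = N := hss
    calc _ ≤ (x : ℝ) * (N / L ^ U2) := mul_le_mul_of_nonneg_left (e3.trans e4) hx0.le
      _ = _ := by ring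
  have hfin : (S.card : ℝ) * (x / L ^ (2 * d + 1)) ≤ 2 * (N * x / L ^ U2) := by
    linarith
  have hU : L ^ U2 = L ^ U * L ^ (2 * d + 1) * L := by
    rw [hU2, ← pow_add, ← pow_succ]; congr 1
  rw [hU] at hfin
  have e5 : 2 * (N * x / (L ^ U * L ^ (2 * d + 1) * L)) = (2 / L) * (N / L ^ U) * (x / L ^ (2 * d + 1)) := by
    field_simp
  rw [e5] at hfin
  have h6 := le_of_mul_le_mul_right hfin (by positivity)
  refine h6.trans ?_
  have h7 : 2 / L ≤ 1 := by rw [div_le_one hL0]; exact hL2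
  calc 2 / L * (N / L ^ U) ≤ 1 * (N / L ^ U) := mul_le_mul_of_nonneg_right h7 (by positivity)
    _ = _ := one_mul _

end Pool.Agent.H45.B9
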