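import Mathlib
import Pool.Agent.H45.B9.DHU
import Pool.Agent.H45.B9.FPrimes

/-! # The polynomial families -/

set_option autoImplicit false

namespace Pool.Agent.H45.B9

open Finset Polynomial Pool.Agent.H373R2.T7

/-- `n` is represented with a square sum of the variables -/
def Rep (n : ℤ) : Prop := ∃ x y z m : ℤ, n = x ^ 2 + 2 * y ^ 2 + 3 * z ^ 2 ∧ x + y + z = m ^ 2

/-- `6 ((m + p t)⁴ - m⁴) / p` -/
noncomputable def hp (p m : ℕ) : ℤ[X] :=
  C (6 * (p : ℤ) ^ 3) * X ^ 4 + C (24 * m * (p : ℤ) ^ 2) * X ^ 3 + C (36 * (m : ℤ) ^ 2 * p) * X ^ 2 + C (24 * (m : ℤ) ^ 3) * X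

lemma hp_eval (p m : ℕ) (t : ℤ) : p * (hp p m).eval t = 6 * ((m + p * t) ^ 4 - (m : ℤ) ^ 4) := by
  unfold hp
  simp only [eval_add, eval_mul, eval_C, eval_pow, eval_X]
  ring

lemma hp_deg (p m : ℕ) : (hp p m).natDegree ≤ 4 := by
  unfold hp
  compute_degree

/-- local solubility -/
lemma hp_loc (p m n : ℕ) (hpr : p.Prime) (h11 : 11 < p) (hm : ¬ p ∣ m) (hn : Odd n) (hn3 : ¬ 3 ∣ n) (b : ℤ)
    (hb : (p : ℤ) * b = 11 * n - 6 * m ^ 4) : LocOK (hp p m) b := by
  intro q hq
  have key : ∀ t : ℤ, (p : ℤ) * (b - (hp p m).eval t) = 11 * n - 6 * (m + p * t) ^ 4 := by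
    intro t
    have := hp_eval p m t
    linear_combination hb - this
  have hqp : Prime (q : ℤ) := Nat.prime_iff_prime_int.1 hq
  by_cases h1 : q = p
  · -- modulo `p` the polynomial is linear
    subst h1
    by_cases h2 : (q : ℤ) ∣ b
    · refine ⟨1, fun h3 => ?_⟩
      have h4 : (q : ℤ) ∣ (hp q m).eval 1 := by
        have := dvd_sub h2 h3
        have e : b - (b - (hp q m).eval 1) = (hp q m).eval 1 := by ring
        rwa [e] at this
      unfold hp at h4
      simp only [eval_add, eval_mul, eval_C, eval_pow, eval_X] at h4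
      have h5 : (q : ℤ) ∣ 24 * (m : ℤ) ^ 3 := by
        have h6 : (q : ℤ) ∣ q * (6 * q ^ 2 + 24 * m * q + 36 * m ^ 2) := dvd_mul_right _ _
        have := dvd_sub h4 h6
        have e : 6 * (q : ℤ) ^ 3 * 1 ^ 4 + 24 * m * (q : ℤ) ^ 2 * 1 ^ 3 + 36 * (m : ℤ) ^ 2 * q * 1 ^ 2 + 24 * (m : ℤ) ^ 3 * 1 -
            q * (6 * q ^ 2 + 24 * m * q + 36 * m ^ 2) = 24 * (m : ℤ) ^ 3 := by ring
        rwa [e] at this
      rcases hqp.dvd_or_dvd h5 with h6 | h6
      · have h7 : q ∣ 24 := by exact_mod_cast h6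
        have h8 : q ∣ 2 ^ 3 * 3 := by norm_num; exact h7
        rcases hq.dvd_mul.1 h8 with h9 | h9
        · have := Nat.le_of_dvd (by norm_num) (hq.dvd_of_dvd_pow h9)
          omega
        · have := Nat.le_of_dvd (by norm_num) h9
          omega
      · have h7 := hqp.dvd_of_dvd_pow h6
        exact hm (by exact_mod_cast h7)
    · refine ⟨0, fun h3 => h2 ?_⟩
      have e : (hp q m).eval 0 = 0 := by
        unfold hp
        simp
      rwa [e, sub_zero] at h3
  · -- `p` is invertible modulo `q`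
    have hcop : IsCoprime (p : ℤ) (q : ℤ) := by
      rw [Nat.isCoprime_iff_coprime]
      exact (Nat.coprime_primes hpr hq).2 (fun h => h1 h.symm)
    have hval : ∀ r : ℤ, ∃ t : ℤ, (q : ℤ) ∣ (m + p * t) - r := by
      intro r
      obtain ⟨u, v, huv⟩ := hcop
      refine ⟨u * (r - m), ⟨-v * (r - m), ?_⟩⟩
      linear_combination (r - m) * huv
    have hred : ∀ r : ℤ, ¬ (q : ℤ) ∣ 11 * n - 6 * r ^ 4 → ∃ t : ℤ, ¬ (q : ℤ) ∣ b - (hp p m).eval t := by
      intro r hr
      obtain ⟨t, ht⟩ := hval r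
      refine ⟨t, fun h3 => hr ?_⟩
      have h4 : (q : ℤ) ∣ 11 * n - 6 * (m + p * t) ^ 4 := by
        rw [← key t]; exact Dvd.dvd.mul_left h3 _
      have h5 : (q : ℤ) ∣ (m + p * t) ^ 4 - r ^ 4 := ht.trans (sub_dvd_pow_sub_pow _ _ 4)
      have := dvd_add h4 (Dvd.dvd.mul_left h5 6)
      have e : (11 : ℤ) * n - 6 * (m + p * t) ^ 4 + 6 * ((m + p * t) ^ 4 - r ^ 4) = 11 * n - 6 * r ^ 4 := by ring
      rwa [e] at this
    by_cases h2 : q = 2
    · subst h2
      apply hred 0
      obtain ⟨k, hk⟩ := hn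
      rw [hk]
      push_cast
      omega
    by_cases h3 : q = 3
    · subst h3
      apply hred 0
      push_cast
      omega
    by_cases h4 : q = 11
    · subst h4
      apply hred 1
      push_cast
      omega
    by_cases h5 : q ∣ n
    · apply hred 1
      intro h6
      have h7 : (q : ℤ) ∣ 11 * n := Dvd.dvd.mul_left (by exact_mod_cast h5) 11
      have h8 : (q : ℤ) ∣ 6 := by
        have := dvd_sub h7 h6
        have e : (11 : ℤ) * n - (11 * n - 6 * 1 ^ 4) = 6 := by ring
        rwa [e] at this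
      have h9 : q ∣ 2 * 3 := by exact_mod_cast h8
      rcases hq.dvd_mul.1 h9 with h10 | h10
      · exact h2 ((Nat.prime_dvd_prime_iff_eq hq Nat.prime_two).1 h10)
      · exact h3 ((Nat.prime_dvd_prime_iff_eq hq Nat.prime_three).1 h10)
    · apply hred 0
      intro h6
      have h7 : (q : ℤ) ∣ 11 * n := by simpa using h6
      have h8 : q ∣ 11 * n := by exact_mod_cast h7
      rcases hq.dvd_mul.1 h8 with h9 | h9
      · exact h4 ((Nat.prime_dvd_prime_iff_eq hq (by norm_num)).1 h9)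
      · exact h5 h9

/-- a prime value gives a representation -/
lemma hp_rep (p m n : ℕ) (hpF : isF p) (h11 : 11 < p) (hn : Odd n) (b : ℤ)
    (hb : (p : ℤ) * b = 11 * n - 6 * m ^ 4) (t : ℤ) (q : ℕ) (hq : q.Prime) (h : b - (hp p m).eval t = q) : Rep n := by
  obtain ⟨hpr, a, c, hac⟩ := hpF
  have key : (p : ℤ) * (b - (hp p m).eval t) = 11 * n - 6 * (m + p * t) ^ 4 := by
    have := hp_eval p m t
    linear_combination hb - this
  rw [h, hac] at key
  have hq2 : q ≠ 2 := by
    rintro rfl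
    have : Odd ((11 : ℤ) * n) := by
      rw [Int.odd_mul]
      exact ⟨by decide, by exact_mod_cast hn⟩
    have h2 : (11 : ℤ) * n = 2 * (ff a c + 3 * (m + ff a c * t) ^ 4) := by
      push_cast at key
      linarith
    rw [h2, Int.odd_iff] at this
    omega
  have h11' : ¬ (11 : ℤ) ∣ ff a c := by
    rw [← hac]
    intro h3
    have h4 : 11 ∣ p := by exact_mod_cast h3
    have := (Nat.prime_dvd_prime_iff_eq (by norm_num) hpr).1 h4
    omega
  obtain ⟨x, y, z, h5, h6⟩ := rep_main n (m + ff a c * t) a c q hq hq2 h11' key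
  exact ⟨x, y, z, _, h5, h6⟩

/-- the energy of the family -/
lemma hp_energy (k p m x X' : ℕ) (hp0 : 0 < p) (hX : m + p * x ≤ X') :
    energy k x (fun t => (hp p m).eval (t : ℤ)) ≤ energy k X' (fun u => ((X : ℤ[X]) ^ 4).eval (u : ℤ)) := by
  unfold energy
  apply card_le_card_of_injOn (fun q => (fun i => m + p * q.1 i, fun i => m + p * q.2 i))
  · intro q hq
    rw [mem_coe, mem_filter, mem_product, Fintype.mem_piFinset, Fintype.mem_piFinset] at hq
    obtain ⟨⟨h1, h2⟩, h3⟩ := hq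
    simp only at h3
    rw [mem_coe, mem_filter, mem_product, Fintype.mem_piFinset, Fintype.mem_piFinset]
    refine ⟨⟨fun i => ?_, fun i => ?_⟩, ?_⟩
    · have h4 := mem_Icc.1 (h1 i)
      rw [mem_Icc]
      constructor
      · have : 1 * 1 ≤ p * q.1 i := Nat.mul_le_mul hp0 h4.1
        simp only
        omega
      · have : p * q.1 i ≤ p * x := Nat.mul_le_mul_left _ h4.2
        simp only
        omega
    · have h4 := mem_Icc.1 (h2 i)
      rw [mem_Icc]
      constructor
      · have : 1 * 1 ≤ p * q.2 i := Nat.mul_le_mul hp0 h4.1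
        simp only
        omega
      · have : p * q.2 i ≤ p * x := Nat.mul_le_mul_left _ h4.2
        simp only
        omega
    · simp only [eval_pow, eval_X]
      have h5 : ∀ t : ℕ, ((m + p * t : ℕ) : ℤ) ^ 4 * 6 = p * (hp p m).eval (t : ℤ) + 6 * (m : ℤ) ^ 4 := by
        intro t
        rw [hp_eval]
        push_cast
        ring
      have h6 : (∑ i, ((m + p * q.1 i : ℕ) : ℤ) ^ 4) * 6 = (∑ i, ((m + p * q.2 i : ℕ) : ℤ) ^ 4) * 6 := by
        rw [sum_mul, sum_mul]
        simp only [h5]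
        rw [sum_add_distrib, sum_add_distrib, ← mul_sum (f := fun i => eval (((q.1 i : ℕ) : ℤ)) (hp p m)),
          ← mul_sum (f := fun i => eval (((q.2 i : ℕ) : ℤ)) (hp p m)), h3]
      exact mul_right_cancel₀ (by norm_num) h6
  · intro q hq q' hq' h
    simp only [Prod.mk.injEq] at h
    obtain ⟨h1, h2⟩ := h
    ext i
    · have := congrFun h1 i
      exact Nat.eq_of_mul_eq_mul_left hp0 (Nat.add_left_cancel this)
    · have := congrFun h2 i
      exact Nat.eq_of_mul_eq_mul_left hp0 (Nat.add_left_cancel this)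

end Pool.Agent.H45.B9
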