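import Mathlib
import Pool.Agent.H45.B9.Fam

/-! # Counting exceptions in one family -/

set_option autoImplicit false

namespace Pool.Agent.H45.B9

open Finset Polynomial Pool.Agent.H373R2.T7

lemma sqrt2_le (Y : ℕ) : (Nat.sqrt (Nat.sqrt Y)) ^ 4 ≤ Y := by
  have h1 := Nat.sqrt_le' (Nat.sqrt Y)
  have h2 := Nat.sqrt_le' Y
  calc (Nat.sqrt (Nat.sqrt Y)) ^ 4 = ((Nat.sqrt (Nat.sqrt Y)) ^ 2) ^ 2 := by ring
    _ ≤ (Nat.sqrt Y) ^ 2 := Nat.pow_le_pow_left h1 2
    _ ≤ Y := h2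

lemma sqrt2_lt (Y : ℕ) : Y < (Nat.sqrt (Nat.sqrt Y) + 1) ^ 4 := by
  have h1 : Nat.sqrt Y < (Nat.sqrt (Nat.sqrt Y) + 1) ^ 2 := Nat.lt_succ_sqrt' (Nat.sqrt Y)
  have h2 : Y < (Nat.sqrt Y + 1) ^ 2 := Nat.lt_succ_sqrt' Y
  calc Y < (Nat.sqrt Y + 1) ^ 2 := h2
    _ ≤ ((Nat.sqrt (Nat.sqrt Y) + 1) ^ 2) ^ 2 := Nat.pow_le_pow_left h1 2
    _ = _ := by ring

lemma lead4 : (X ^ 4 : ℤ[X]).natDegree = 4 ∧ 0 < (X ^ 4 : ℤ[X]).leadingCoeff := by
  refine ⟨natDegree_X_pow 4, ?_⟩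
  rw [leadingCoeff_X_pow]; norm_num

open Classical in
set_option maxHeartbeats 1000000 in
/-- exceptions in the family of `p` and `m` -/
theorem fam_bad (c U V : ℕ) : ∃ N0 : ℕ, ∀ N : ℕ, N0 ≤ N → ∀ p m : ℕ, isF p → 11 < p → (p : ℝ) ≤ Real.log N ^ c →
    1 ≤ m → m < p →
    (((Icc 1 N).filter (fun n : ℕ => (N : ℝ) / Real.log N ^ U ≤ n ∧ Odd n ∧ ¬ 3 ∣ n ∧ (p : ℤ) ∣ 11 * n - 6 * m ^ 4 ∧
      ¬ Rep n)).card : ℝ) ≤ N / Real.log N ^ V := by
  obtain ⟨k, C, hC, hen⟩ := energy_poly (X ^ 4 : ℤ[X]) (by rw [lead4.1]; norm_num) lead4.2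
  set K := U + c + 2 with hK
  set C' := K + 1 + 2 * k * (c + 1) with hC'
  obtain ⟨n0, h0⟩ := dhu k 4 6 C' V 5 (by norm_num)
  obtain ⟨n1, h1⟩ := ev_L' (max (16 * C) 3)
  obtain ⟨n2, h2⟩ := ev_log' (5 * K + 20 * c) (32 ^ 4)
  obtain ⟨n3, h3⟩ := ev_log' (4 * c + U) 7
  refine ⟨max (max n0 n1) (max n2 (max n3 3)), fun N hN p m hpF h11 hpL hm1 hmp => ?_⟩
  have a0 : n0 ≤ N := le_trans (le_trans (le_max_left _ _) (le_max_left _ _)) hN
  have a1 : n1 ≤ N := le_trans (le_trans (le_max_right _ _) (le_max_left _ _)) hN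
  have a2 : n2 ≤ N := le_trans (le_trans (le_max_left _ _) (le_max_right _ _)) hN
  have a3 : n3 ≤ N := le_trans (le_trans (le_max_left _ _) (le_trans (le_max_right _ _) (le_max_right _ _))) hN
  have a4 : 3 ≤ N := le_trans (le_trans (le_max_right _ _) (le_trans (le_max_right _ _) (le_max_right _ _))) hN
  have hL := h1 N a1
  have hs1 := h2 N a2
  have hs2 := h3 N a3
  have hNr : (3 : ℝ) ≤ N := by exact_mod_cast a4
  have hN0 : (0 : ℝ) < N := by linarith
  set L := Real.log N with hLdef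
  have hLC : 16 * C ≤ L := (le_max_left _ _).trans hL
  have hL3 : 3 ≤ L := (le_max_right _ _).trans hL
  have hL0 : 0 < L := by linarith
  have hL1 : 1 ≤ L := by linarith
  have hsqN : √(N : ℝ) ≤ N := by
    rw [Real.sqrt_le_left (by positivity)]
    nlinarith
  have hb1 : 32 ^ 4 * L ^ (5 * K + 20 * c) ≤ N := hs1.trans hsqN
  have hb2 : 7 * L ^ (4 * c + U) ≤ N := hs2.trans hsqN
  have hp0 : 0 < p := by omega
  have hpr : (0 : ℝ) < p := by exact_mod_cast hp0
  have hp1 : (1 : ℝ) ≤ p := by exact_mod_cast hp0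
  set Y := ⌊(N : ℝ) / L ^ K⌋₊ with hY
  set X0 := Nat.sqrt (Nat.sqrt Y) with hX0
  set x := X0 / p - 1 with hx
  have hYN : (Y : ℝ) ≤ N / L ^ K := Nat.floor_le (by positivity)
  have hYN' : (Y : ℝ) ≤ N := hYN.trans (div_le_self hN0.le (one_le_pow₀ hL1))
  have hYN2 : Y ≤ N := by exact_mod_cast hYN'
  have hY4 : X0 ^ 4 ≤ Y := sqrt2_le Y
  have hY4' : (N : ℝ) / L ^ K < ((X0 : ℝ) + 1) ^ 4 := by
    have h5 : (N : ℝ) / L ^ K < Y + 1 := Nat.lt_floor_add_one _
    have h6 : Y + 1 ≤ (X0 + 1) ^ 4 := sqrt2_lt Y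
    have h7 : (Y : ℝ) + 1 ≤ ((X0 : ℝ) + 1) ^ 4 := by exact_mod_cast h6
    linarith
  have hX0big : 32 * L ^ (K + 5 * c) < (X0 : ℝ) + 1 := by
    have h5 : (32 * L ^ (K + 5 * c)) ^ 4 ≤ N / L ^ K := by
      rw [le_div_iff₀ (by positivity)]
      refine le_trans (le_of_eq ?_) hb1
      rw [mul_pow, ← pow_mul, mul_assoc, ← pow_add]
      congr 2
      ring
    exact lt_of_pow_lt_pow_left₀ 4 (by positivity) (h5.trans_lt hY4')
  have hLc : L ^ c ≤ L ^ (K + 5 * c) := pow_le_pow_right₀ hL1 (by omega)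
  have hLc1 : 1 ≤ L ^ (K + 5 * c) := one_le_pow₀ hL1
  have hX0p : 4 * p ≤ X0 := by
    have : (4 : ℝ) * p ≤ X0 := by linarith
    exact_mod_cast this
  have hdiv : 4 ≤ X0 / p := (Nat.le_div_iff_mul_le hp0).2 hX0p
  have hx3 : 3 ≤ x := by omega
  have hmx : m + p * x ≤ X0 := by
    have h5 : p * (X0 / p) ≤ X0 := Nat.mul_div_le X0 p
    have h6 : p * (X0 / p) = p * x + p := by
      rw [hx, Nat.mul_sub, mul_one]
      have : p * 1 ≤ p * (X0 / p) := Nat.mul_le_mul_left _ (by omega)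
      omega
    omega
  have hX0x : X0 + 1 ≤ 2 * (p * x) := by
    have h5 : X0 < p * (X0 / p + 1) := Nat.lt_mul_div_succ X0 hp0
    have h6 : X0 / p + 1 = x + 2 := by omega
    rw [h6] at h5
    nlinarith
  have hX0xr : (X0 : ℝ) + 1 ≤ 2 * (p * x) := by exact_mod_cast hX0x
  have hxr : (3 : ℝ) ≤ x := by exact_mod_cast hx3
  have hx0 : (0 : ℝ) < x := by linarith
  have hpx : (p : ℝ) * x ≤ L ^ c * x := mul_le_mul_of_nonneg_right hpL hx0.le
  have hxbig : 16 * L ^ (K + 4 * c) ≤ x := by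
    have h5 : 32 * L ^ (K + 5 * c) ≤ 2 * (L ^ c * x) := by linarith
    have h6 : L ^ (K + 5 * c) = L ^ c * L ^ (K + 4 * c) := by rw [← pow_add]; congr 1; ring
    rw [h6] at h5
    have h7 : 0 < L ^ c := by positivity
    have h8 : L ^ c * (16 * L ^ (K + 4 * c)) ≤ L ^ c * x := by linarith
    exact le_of_mul_le_mul_left h8 h7
  have hNX : (N : ℝ) ≤ L ^ K * ((X0 : ℝ) + 1) ^ 4 := by
    have := (div_lt_iff₀ (by positivity)).1 hY4'
    linarith
  have hN5 : N ≤ x ^ 5 := by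
    have h5 : (N : ℝ) ≤ (x : ℝ) ^ 5 := by
      calc (N : ℝ) ≤ L ^ K * ((X0 : ℝ) + 1) ^ 4 := hNX
        _ ≤ L ^ K * (2 * (L ^ c * x)) ^ 4 := by
            apply mul_le_mul_of_nonneg_left _ (by positivity)
            apply pow_le_pow_left₀ (by positivity)
            linarith
        _ = (16 * L ^ (K + 4 * c)) * x ^ 4 := by
            rw [mul_pow, mul_pow, ← pow_mul, pow_add]; ring
        _ ≤ x * x ^ 4 := mul_le_mul_of_nonneg_right hxbig (by positivity)
        _ = _ := by ring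
    exact_mod_cast h5
  -- size of the polynomial
  have hval : ∀ t ∈ Icc 1 x, 0 ≤ (hp p m).eval (t : ℤ) ∧ (hp p m).eval (t : ℤ) ≤ 6 * Y := by
    intro t ht
    rw [mem_Icc] at ht
    have h5 := hp_eval p m (t : ℤ)
    have h6 : (m : ℤ) ^ 4 ≤ (m + p * t) ^ 4 := by
      apply pow_le_pow_left₀ (by positivity)
      have : (0 : ℤ) ≤ p * t := by positivity
      linarith
    have h7 : m + p * t ≤ X0 := by
      have : p * t ≤ p * x := Nat.mul_le_mul_left _ ht.2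
      omega
    have h8 : ((m : ℤ) + p * t) ^ 4 ≤ Y := by
      have h9 : (m + p * t) ^ 4 ≤ Y := (Nat.pow_le_pow_left h7 4).trans hY4
      exact_mod_cast h9
    have hp0' : (0 : ℤ) < p := by exact_mod_cast hp0
    have h10 : 0 ≤ (hp p m).eval (t : ℤ) := by
      by_contra hcon
      push Not at hcon
      have := mul_neg_of_pos_of_neg hp0' hcon
      linarith
    refine ⟨h10, ?_⟩
    have h11 : (hp p m).eval (t : ℤ) ≤ p * (hp p m).eval (t : ℤ) := by nlinarith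
    have h12 : (0 : ℤ) ≤ (m : ℤ) ^ 4 := by positivity
    linarith
  have henergy : (energy k x (fun t => (hp p m).eval (t : ℤ)) : ℝ) * N ≤ L ^ C' * (x : ℝ) ^ (2 * k) := by
    have hX01 : 1 ≤ X0 := by omega
    have h5 := hen X0 hX01
    rw [lead4.1] at h5
    have h6 : (energy k x (fun t => (hp p m).eval (t : ℤ)) : ℝ) ≤ energy k X0 (fun u => ((X : ℤ[X]) ^ 4).eval (u : ℤ)) := by
      exact_mod_cast hp_energy k p m x X0 hp0 hmx
    have hX0r : (1 : ℝ) ≤ X0 := by exact_mod_cast hX01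
    have h7 : ((X0 : ℝ) + 1) ^ 4 ≤ 16 * (X0 : ℝ) ^ 4 := by
      calc ((X0 : ℝ) + 1) ^ 4 ≤ (2 * (X0 : ℝ)) ^ 4 := pow_le_pow_left₀ (by positivity) (by linarith) 4
        _ = _ := by ring
    set En := (energy k X0 (fun u => ((X : ℤ[X]) ^ 4).eval (u : ℤ)) : ℝ) with hEn
    have hEn0 : 0 ≤ En := Nat.cast_nonneg _
    have hX0le : (X0 : ℝ) ≤ L ^ (c + 1) * x := by
      have h8 : 2 * (L ^ c * x) ≤ L * (L ^ c * x) := mul_le_mul_of_nonneg_right (by linarith) (by positivity)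
      have h9 : L ^ (c + 1) * (x : ℝ) = L * (L ^ c * x) := by rw [pow_succ]; ring
      rw [h9]; linarith
    calc _ ≤ En * N := mul_le_mul_of_nonneg_right h6 hN0.le
      _ ≤ En * (L ^ K * (16 * (X0 : ℝ) ^ 4)) := by
          apply mul_le_mul_of_nonneg_left _ hEn0
          exact hNX.trans (mul_le_mul_of_nonneg_left h7 (by positivity))
      _ = 16 * L ^ K * (En * (X0 : ℝ) ^ 4) := by ring
      _ ≤ 16 * L ^ K * (C * (X0 : ℝ) ^ (2 * k)) := mul_le_mul_of_nonneg_left h5 (by positivity)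
      _ = (16 * C) * L ^ K * (X0 : ℝ) ^ (2 * k) := by ring
      _ ≤ L * L ^ K * (L ^ (c + 1) * x) ^ (2 * k) := by
          apply mul_le_mul
          · exact mul_le_mul_of_nonneg_right hLC (by positivity)
          · exact pow_le_pow_left₀ (by positivity) hX0le _
          · positivity
          · positivity
      _ = L ^ C' * (x : ℝ) ^ (2 * k) := by
          rw [mul_pow, ← pow_mul, hC']
          have : L ^ (K + 1 + 2 * k * (c + 1)) = L * L ^ K * L ^ ((c + 1) * (2 * k)) := by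
            rw [← pow_succ', ← pow_add]; congr 1; ring
          rw [this]; ring
  have key := h0 N a0 x (hp p m) (hp_deg p m) hN5 (by
    intro t ht
    obtain ⟨h5, h6⟩ := hval t ht
    rw [abs_of_nonneg h5]
    have : (Y : ℤ) ≤ N := by exact_mod_cast hYN2
    push_cast
    linarith) henergy (6 * Y + 1) (by
    intro t ht
    have := (hval t ht).2
    push_cast
    linarith)
  refine le_trans ?_ key
  -- injection
  refine Nat.cast_le.2 ?_
  apply card_le_card_of_injOn (fun n : ℕ => ((11 * (n : ℤ) - 6 * m ^ 4) / p).toNat)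
  · intro n hn
    rw [mem_coe, mem_filter, mem_Icc] at hn
    obtain ⟨⟨hn1, hnN⟩, hnL, hodd, hn3, ⟨b, hb⟩, hrep⟩ := hn
    have hp0' : (0 : ℤ) < p := by exact_mod_cast hp0
    have e1 : (11 * (n : ℤ) - 6 * m ^ 4) / p = b := by
      rw [hb]; exact Int.mul_ediv_cancel_left b hp0'.ne'
    -- lower bound for `b`
    have hbig : (p : ℝ) * (6 * Y + 1) + 6 * m ^ 4 ≤ 11 * n := by
      have h5 : (m : ℝ) ≤ L ^ c := by
        have : (m : ℝ) ≤ p := by exact_mod_cast hmp.le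
        linarith
      have h6 : (m : ℝ) ^ 4 ≤ L ^ (4 * c) := by
        rw [mul_comm 4 c, pow_mul]
        exact pow_le_pow_left₀ (by positivity) h5 4
      have h7 : (p : ℝ) * (6 * Y + 1) ≤ L ^ c * (6 * (N / L ^ K) + 1) := by
        apply mul_le_mul hpL _ (by positivity) (by positivity)
        linarith
      have h8 : L ^ c * (6 * (N / L ^ K)) = 6 / L ^ 2 * (N / L ^ U) := by
        rw [hK, pow_add, pow_add]; field_simp
      have h9 : 6 / L ^ 2 ≤ 1 := by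
        rw [div_le_one (by positivity)]; nlinarith
      have h10 : 0 < (N : ℝ) / L ^ U := by positivity
      have h11' : 7 * L ^ (4 * c) ≤ N / L ^ U := by
        rw [le_div_iff₀ (by positivity)]
        calc 7 * L ^ (4 * c) * L ^ U = 7 * L ^ (4 * c + U) := by rw [pow_add]; ring
          _ ≤ N := hb2
      have h12 : L ^ c ≤ L ^ (4 * c) := pow_le_pow_right₀ hL1 (by omega)
      nlinarith
    have hbA : (6 * (Y : ℤ) + 1) ≤ b := by
      have h5 : (p : ℤ) * (6 * Y + 1) + 6 * m ^ 4 ≤ 11 * n := by exact_mod_cast hbig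
      have h6 : (p : ℤ) * (6 * Y + 1) ≤ p * b := by linarith
      exact le_of_mul_le_mul_left h6 hp0'
    have hb0 : 0 ≤ b := by
      have : (0 : ℤ) ≤ Y := Int.natCast_nonneg _
      linarith
    have hbN : b ≤ N := by
      have h5 : (p : ℤ) * b ≤ p * N := by
        rw [← hb]
        have h6 : (n : ℤ) ≤ N := by exact_mod_cast hnN
        have h7 : (11 : ℤ) ≤ p := by exact_mod_cast h11.le
        have h8 : (0 : ℤ) ≤ (m : ℤ) ^ 4 := by positivity
        have h9 : (0 : ℤ) ≤ N := Int.natCast_nonneg _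
        nlinarith
      exact le_of_mul_le_mul_left h5 hp0'
    rw [mem_coe, mem_filter, mem_Icc]
    simp only [e1]
    have hbt : ((b.toNat : ℕ) : ℤ) = b := Int.toNat_of_nonneg hb0
    have hY0 : (0 : ℤ) ≤ Y := Int.natCast_nonneg _
    refine ⟨⟨by omega, by omega⟩, by omega, ?_, ?_⟩
    · rw [hbt]
      refine hp_loc p m n hpF.1 h11 ?_ hodd hn3 b hb.symm
      intro h5
      have := Nat.le_of_dvd (by omega) h5
      omega
    · intro t _ q hq h5
      rw [hbt] at h5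
      exact hrep (hp_rep p m n hpF h11 hodd b hb.symm t q hq h5)
  · intro n hn n' hn' h
    rw [mem_coe, mem_filter, mem_Icc] at hn hn'
    obtain ⟨⟨hn1, hnN⟩, hnL, hodd, hn3, ⟨b, hb⟩, hrep⟩ := hn
    obtain ⟨⟨hn1', hnN'⟩, hnL', hodd', hn3', ⟨b', hb'⟩, hrep'⟩ := hn'
    have hp0' : (0 : ℤ) < p := by exact_mod_cast hp0
    have e1 : (11 * (n : ℤ) - 6 * m ^ 4) / p = b := by
      rw [hb]; exact Int.mul_ediv_cancel_left b hp0'.ne'
    have e2 : (11 * (n' : ℤ) - 6 * m ^ 4) / p = b' := by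
      rw [hb']; exact Int.mul_ediv_cancel_left b' hp0'.ne'
    simp only [e1, e2] at h
    have hpos : ∀ (n : ℕ) (b : ℤ), (N : ℝ) / L ^ U ≤ n → 11 * (n : ℤ) - 6 * m ^ 4 = p * b → 0 ≤ b := by
      intro n b hnL hb
      have h5 : (m : ℝ) ≤ L ^ c := by
        have : (m : ℝ) ≤ p := by exact_mod_cast hmp.le
        linarith
      have h6 : (m : ℝ) ^ 4 ≤ L ^ (4 * c) := by
        rw [mul_comm 4 c, pow_mul]
        exact pow_le_pow_left₀ (by positivity) h5 4
      have h11' : 7 * L ^ (4 * c) ≤ N / L ^ U := by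
        rw [le_div_iff₀ (by positivity)]
        calc 7 * L ^ (4 * c) * L ^ U = 7 * L ^ (4 * c + U) := by rw [pow_add]; ring
          _ ≤ N := hb2
      have h7 : 6 * (m : ℝ) ^ 4 ≤ 11 * n := by nlinarith
      have h8 : 6 * (m : ℤ) ^ 4 ≤ 11 * n := by exact_mod_cast h7
      have h9 : 0 ≤ (p : ℤ) * b := by linarith
      exact nonneg_of_mul_nonneg_right h9 hp0'
    have hb0 := hpos n b hnL hb
    have hb0' := hpos n' b' hnL' hb'
    have h5 : b = b' := by omega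
    rw [h5] at hb
    have : (n : ℤ) = n' := by linarith
    exact_mod_cast this

end Pool.Agent.H45.B9
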