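import Mathlib
import Pool.Agent.H45.B9.Fam2

/-! # Multiples of three -/

set_option autoImplicit false

namespace Pool.Agent.H45.B9

open Finset Polynomial Pool.Agent.H373R2.T7

lemma lead24 : (C 2 * X ^ 4 : ℤ[X]).natDegree = 4 ∧ 0 < (C 2 * X ^ 4 : ℤ[X]).leadingCoeff := by
  have h : (C 2 * X ^ 4 : ℤ[X]).natDegree = 4 := by
    rw [natDegree_C_mul_X_pow]; norm_num
  refine ⟨h, ?_⟩
  rw [leadingCoeff_C_mul_X_pow]; norm_num

lemma loc3 (n : ℕ) (hn : Odd n) : LocOK (C 2 * X ^ 4) (11 * n) := by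
  intro q hq
  have hqp : Prime (q : ℤ) := Nat.prime_iff_prime_int.1 hq
  have hev : ∀ t : ℤ, (C 2 * X ^ 4 : ℤ[X]).eval t = 2 * t ^ 4 := by
    intro t
    simp
  by_cases h2 : q = 2
  · subst h2
    refine ⟨0, ?_⟩
    rw [hev]
    obtain ⟨k, hk⟩ := hn
    rw [hk]
    push_cast
    omega
  by_cases h0 : (q : ℤ) ∣ 11 * n
  · refine ⟨1, fun h => ?_⟩
    rw [hev] at h
    have h3 : (q : ℤ) ∣ 2 := by
      have := dvd_sub h0 h
      have e : (11 : ℤ) * n - (11 * n - 2 * 1 ^ 4) = 2 := by ring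
      rwa [e] at this
    have h4 : q ∣ 2 := by exact_mod_cast h3
    exact h2 ((Nat.prime_dvd_prime_iff_eq hq Nat.prime_two).1 h4)
  · refine ⟨0, fun h => h0 ?_⟩
    rw [hev] at h
    simpa using h

lemma rep3 (n : ℕ) (hn : Odd n) (t : ℤ) (q : ℕ) (hq : q.Prime) (h : 11 * (n : ℤ) - 2 * t ^ 4 = q) : Rep (3 * n) := by
  have hq2 : q ≠ 2 := by
    rintro rfl
    obtain ⟨k, hk⟩ := hn
    rw [hk] at h
    push_cast at h
    omega
  obtain ⟨x, y, z, h5, h6⟩ := rep_main (3 * n) t 1 0 q hq hq2 (by unfold ff; norm_num) (by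
    unfold ff
    rw [← h]
    ring)
  exact ⟨x, y, z, _, h5, h6⟩

open Classical in
set_option maxHeartbeats 1000000 in
/-- exceptions among the multiples of three -/
theorem fam3_bad (U V : ℕ) : ∃ N0 : ℕ, ∀ N : ℕ, N0 ≤ N →
    (((Icc 1 N).filter (fun n : ℕ => (N : ℝ) / Real.log N ^ U ≤ n ∧ Odd n ∧ 3 ∣ n ∧
      ¬ Rep n)).card : ℝ) ≤ N / Real.log N ^ V := by
  obtain ⟨k, C0, hC, hen⟩ := energy_poly (C 2 * X ^ 4 : ℤ[X]) (by rw [lead24.1]; norm_num) lead24.2
  set K := U + 2 with hK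
  obtain ⟨n0, h0⟩ := dhu k 4 1 (K + 1) (V + 1) 5 (by norm_num)
  obtain ⟨n1, h1⟩ := ev_L' (max (64 * C0) 4)
  obtain ⟨n2, h2⟩ := ev_log' (5 * K) (64 ^ 5)
  refine ⟨max (max n0 n1) (max n2 3), fun N hN => ?_⟩
  have a0 : n0 ≤ N := le_trans (le_trans (le_max_left _ _) (le_max_left _ _)) hN
  have a1 : n1 ≤ N := le_trans (le_trans (le_max_right _ _) (le_max_left _ _)) hN
  have a2 : n2 ≤ N := le_trans (le_trans (le_max_left _ _) (le_max_right _ _)) hN
  have a4 : 3 ≤ N := le_trans (le_trans (le_max_right _ _) (le_max_right _ _)) hN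
  have hL := h1 N a1
  have hs1 := h2 N a2
  have hNr : (3 : ℝ) ≤ N := by exact_mod_cast a4
  have hN0 : (0 : ℝ) < N := by linarith
  set L := Real.log N with hLdef
  have hLC : 64 * C0 ≤ L := (le_max_left _ _).trans hL
  have hL4 : 4 ≤ L := (le_max_right _ _).trans hL
  have hL0 : 0 < L := by linarith
  have hL1 : 1 ≤ L := by linarith
  have hsqN : √(N : ℝ) ≤ N := by
    rw [Real.sqrt_le_left (by positivity)]
    nlinarith
  have hb1 : 64 ^ 5 * L ^ (5 * K) ≤ N := hs1.trans hsqN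
  set Y := ⌊(N : ℝ) / L ^ K⌋₊ with hY
  set x := Nat.sqrt (Nat.sqrt Y) with hx
  have hYN : (Y : ℝ) ≤ N / L ^ K := Nat.floor_le (by positivity)
  have hYN' : (Y : ℝ) ≤ N := hYN.trans (div_le_self hN0.le (one_le_pow₀ hL1))
  have hYN2 : Y ≤ N := by exact_mod_cast hYN'
  have hY4 : x ^ 4 ≤ Y := sqrt2_le Y
  have hY4' : (N : ℝ) / L ^ K < ((x : ℝ) + 1) ^ 4 := by
    have h5 : (N : ℝ) / L ^ K < Y + 1 := Nat.lt_floor_add_one _
    have h6 : Y + 1 ≤ (x + 1) ^ 4 := sqrt2_lt Y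
    have h7 : (Y : ℝ) + 1 ≤ ((x : ℝ) + 1) ^ 4 := by exact_mod_cast h6
    linarith
  have hxbig : 128 * L ^ K < (x : ℝ) + 1 := by
    have h5 : (128 * L ^ K) ^ 4 ≤ N / L ^ K := by
      rw [le_div_iff₀ (by positivity)]
      have e : (128 * L ^ K) ^ 4 * L ^ K = 128 ^ 4 * L ^ (5 * K) := by
        rw [mul_pow, ← pow_mul, mul_assoc, ← pow_add]
        congr 2
        ring
      rw [e]
      refine le_trans ?_ hb1
      apply mul_le_mul_of_nonneg_right _ (by positivity)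
      norm_num
    exact lt_of_pow_lt_pow_left₀ 4 (by positivity) (h5.trans_lt hY4')
  have hLK1 : 1 ≤ L ^ K := one_le_pow₀ hL1
  have hx1 : (1 : ℝ) ≤ x := by linarith
  have hx1' : 1 ≤ x := by exact_mod_cast hx1
  have hx0 : (0 : ℝ) < x := by linarith
  have hx64 : 64 * L ^ K ≤ x := by linarith
  have hNX : (N : ℝ) ≤ L ^ K * ((x : ℝ) + 1) ^ 4 := by
    have := (div_lt_iff₀ (by positivity)).1 hY4'
    linarith
  have h7 : ((x : ℝ) + 1) ^ 4 ≤ 16 * (x : ℝ) ^ 4 := by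
    calc ((x : ℝ) + 1) ^ 4 ≤ (2 * (x : ℝ)) ^ 4 := pow_le_pow_left₀ (by positivity) (by linarith) 4
      _ = _ := by ring
  have hNx4 : 4 * (N : ℝ) ≤ 64 * L ^ K * x ^ 4 := by
    have := hNX.trans (mul_le_mul_of_nonneg_left h7 (by positivity))
    linarith
  have hN5 : 4 * N ≤ x ^ 5 := by
    have h5 : 4 * (N : ℝ) ≤ (x : ℝ) ^ 5 := by
      calc 4 * (N : ℝ) ≤ 64 * L ^ K * x ^ 4 := hNx4
        _ ≤ x * x ^ 4 := mul_le_mul_of_nonneg_right hx64 (by positivity)
        _ = _ := by ring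
    exact_mod_cast h5
  have hev : ∀ t : ℤ, (C 2 * X ^ 4 : ℤ[X]).eval t = 2 * t ^ 4 := by
    intro t
    simp
  have hval : ∀ t ∈ Icc 1 x, 0 ≤ (C 2 * X ^ 4 : ℤ[X]).eval (t : ℤ) ∧ (C 2 * X ^ 4 : ℤ[X]).eval (t : ℤ) ≤ 2 * Y := by
    intro t ht
    rw [mem_Icc] at ht
    rw [hev]
    have h8 : (t : ℤ) ^ 4 ≤ Y := by
      have h9 : t ^ 4 ≤ Y := (Nat.pow_le_pow_left ht.2 4).trans hY4
      exact_mod_cast h9
    constructor
    · positivity
    · linarith
  set L4 := Real.log ((4 * N : ℕ) : ℝ) with hL4def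
  have hLL4 : L ≤ L4 := by
    apply Real.log_le_log hN0
    push_cast; linarith
  have henergy : (energy k x (fun t => (C 2 * X ^ 4 : ℤ[X]).eval (t : ℤ)) : ℝ) * ((4 * N : ℕ) : ℝ) ≤ L4 ^ (K + 1) * (x : ℝ) ^ (2 * k) := by
    have h5 := hen x hx1'
    rw [lead24.1] at h5
    set En := (energy k x (fun t => (C 2 * X ^ 4 : ℤ[X]).eval (t : ℤ)) : ℝ) with hEn
    have hEn0 : 0 ≤ En := Nat.cast_nonneg _
    calc En * ((4 * N : ℕ) : ℝ) = En * (4 * N) := by push_cast; ring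
      _ ≤ En * (64 * L ^ K * x ^ 4) := mul_le_mul_of_nonneg_left hNx4 hEn0
      _ = 64 * L ^ K * (En * x ^ 4) := by ring
      _ ≤ 64 * L ^ K * (C0 * x ^ (2 * k)) := mul_le_mul_of_nonneg_left h5 (by positivity)
      _ = (64 * C0) * (L ^ K * x ^ (2 * k)) := by ring
      _ ≤ L * (L ^ K * x ^ (2 * k)) := mul_le_mul_of_nonneg_right hLC (by positivity)
      _ = L ^ (K + 1) * x ^ (2 * k) := by rw [pow_succ]; ring
      _ ≤ L4 ^ (K + 1) * x ^ (2 * k) := by
          apply mul_le_mul_of_nonneg_right _ (by positivity)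
          exact pow_le_pow_left₀ hL0.le hLL4 _
  have key := h0 (4 * N) (by omega) x (C 2 * X ^ 4) (by rw [lead24.1]) hN5 (by
    intro t ht
    obtain ⟨h5, h6⟩ := hval t ht
    rw [abs_of_nonneg h5]
    have : (Y : ℤ) ≤ N := by exact_mod_cast hYN2
    have h9 : (0 : ℤ) ≤ N := Int.natCast_nonneg _
    push_cast
    linarith) henergy (2 * Y + 1) (by
    intro t ht
    have := (hval t ht).2
    push_cast
    linarith)
  have hfin : ((4 * N : ℕ) : ℝ) / L4 ^ (V + 1) ≤ N / L ^ V := by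
    have h5 : L ^ (V + 1) ≤ L4 ^ (V + 1) := pow_le_pow_left₀ hL0.le hLL4 _
    calc ((4 * N : ℕ) : ℝ) / L4 ^ (V + 1) ≤ ((4 * N : ℕ) : ℝ) / L ^ (V + 1) :=
          div_le_div_of_nonneg_left (by positivity) (by positivity) h5
      _ = (4 / L) * (N / L ^ V) := by push_cast; rw [pow_succ]; field_simp
      _ ≤ 1 * (N / L ^ V) := by
          apply mul_le_mul_of_nonneg_right _ (by positivity)
          rw [div_le_one hL0]; exact hL4
      _ = _ := one_mul _
  refine le_trans ?_ (key.trans hfin)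
  refine Nat.cast_le.2 ?_
  apply card_le_card_of_injOn (fun n : ℕ => 11 * (n / 3))
  · intro n hn
    rw [mem_coe, mem_filter, mem_Icc] at hn
    obtain ⟨⟨hn1, hnN⟩, hnL, hodd, ⟨n', hn'⟩, hrep⟩ := hn
    have e1 : n / 3 = n' := by omega
    rw [mem_coe, mem_filter, mem_Icc]
    simp only [e1]
    have hodd' : Odd n' := by
      rw [hn', Nat.odd_mul] at hodd
      exact hodd.2
    have hbig : 2 * (Y : ℝ) + 1 ≤ 11 * n' := by
      have h5 : (n : ℝ) = 3 * n' := by rw [hn']; push_cast; ring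
      have h6 : (N : ℝ) / L ^ K = 1 / L ^ 2 * (N / L ^ U) := by
        rw [hK, pow_add]; field_simp
      have h7 : 1 / L ^ 2 ≤ 1 := by
        rw [div_le_one (by positivity)]; nlinarith
      have h8 : 0 < (N : ℝ) / L ^ U := by positivity
      have h9 : (1 : ℝ) ≤ n' := by
        have : 1 ≤ n' := by omega
        exact_mod_cast this
      nlinarith
    have hbig' : 2 * Y + 1 ≤ 11 * n' := by exact_mod_cast hbig
    refine ⟨⟨by omega, by omega⟩, hbig', ?_, ?_⟩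
    · have := loc3 n' hodd'
      push_cast
      exact this
    · intro t _ q hq h5
      rw [hev] at h5
      push_cast at h5
      apply hrep
      have := rep3 n' hodd' t q hq h5
      rw [hn']
      push_cast
      exact this
  · intro n hn n' hn' h
    rw [mem_coe, mem_filter, mem_Icc] at hn hn'
    have h3 := hn.2.2.2.1
    have h3' := hn'.2.2.2.1
    simp only at h
    omega

end Pool.Agent.H45.B9
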