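import Mathlib
import Pool.Agent.H45.B9.Fam3
import Pool.Agent.H45.B9.Cover

/-! # The exceptional set -/

set_option autoImplicit false

namespace Pool.Agent.H45.B9

open Finset Pool.Agent.H373R2.T7

open Classical in
theorem final (A : ℕ) : ∃ N0 : ℕ, ∀ N : ℕ, N0 ≤ N →
    (((Icc 1 N).filter (fun n : ℕ => Odd n ∧ ¬ Rep n)).card : ℝ) ≤ N / Real.log N ^ A := by
  obtain ⟨U, hU⟩ : ∃ U : ℕ, U = A + 2 := ⟨_, rfl⟩
  obtain ⟨c, n0, h0⟩ := cover U
  obtain ⟨n1, h1⟩ := fam3_bad U U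
  obtain ⟨n2, h2⟩ := fam_bad c U (U + 2 * c)
  obtain ⟨n3, h3⟩ := ev_L' 2
  refine ⟨max (max n0 n1) (max n2 (max n3 3)), fun N hN => ?_⟩
  have a0 : n0 ≤ N := le_trans (le_trans (le_max_left _ _) (le_max_left _ _)) hN
  have a1 : n1 ≤ N := le_trans (le_trans (le_max_right _ _) (le_max_left _ _)) hN
  have a2 : n2 ≤ N := le_trans (le_trans (le_max_left _ _) (le_max_right _ _)) hN
  have a3 : n3 ≤ N := le_trans (le_trans (le_max_left _ _) (le_trans (le_max_right _ _) (le_max_right _ _))) hN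
  have a4 : 3 ≤ N := le_trans (le_trans (le_max_right _ _) (le_trans (le_max_right _ _) (le_max_right _ _))) hN
  obtain ⟨S, hS, hunc⟩ := h0 N a0
  have hf3 := h1 N a1
  have hL2 := h3 N a3
  have hNr : (3 : ℝ) ≤ N := by exact_mod_cast a4
  have hN0 : (0 : ℝ) < N := by linarith
  have hfam : ∀ p m : ℕ, isF p → 11 < p → (p : ℝ) ≤ Real.log N ^ c → 1 ≤ m → m < p → _ := fun p m => h2 N a2 p m
  obtain ⟨L, hL⟩ : ∃ L : ℝ, L = Real.log N := ⟨_, rfl⟩
  rw [← hL] at hunc hf3 hL2 hS ⊢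
  have hL0 : 0 < L := by linarith
  have hL1 : 1 ≤ L := by linarith
  set E1 := Icc 1 ⌊(N : ℝ) / L ^ U⌋₊ with hE1
  set E2 := (Icc 1 N).filter (fun n : ℕ => (N : ℝ) / L ^ U ≤ n ∧ Odd n ∧ 3 ∣ n ∧ ¬ Rep n) with hE2
  set E3 := (Icc 1 N).filter (fun n : ℕ => ∀ p ∈ S, ¬ Cov p n) with hE3
  set E4 : ℕ → ℕ → Finset ℕ := fun p m => (Icc 1 N).filter (fun n : ℕ => (N : ℝ) / L ^ U ≤ n ∧ Odd n ∧ ¬ 3 ∣ n ∧
    (p : ℤ) ∣ 11 * n - 6 * m ^ 4 ∧ ¬ Rep n) with hE4
  set E5 := S.biUnion (fun p => (Icc 1 (p - 1)).biUnion (fun m => E4 p m)) with hE5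
  have hsub : (Icc 1 N).filter (fun n : ℕ => Odd n ∧ ¬ Rep n) ⊆ E1 ∪ E2 ∪ E3 ∪ E5 := by
    intro n hn
    rw [mem_filter] at hn
    obtain ⟨hn1, hodd, hrep⟩ := hn
    rw [mem_union, mem_union, mem_union]
    by_cases b1 : (N : ℝ) / L ^ U ≤ n
    · by_cases b2 : 3 ∣ n
      · left; left; right
        rw [hE2, mem_filter]
        exact ⟨hn1, b1, hodd, b2, hrep⟩
      · by_cases b3 : ∀ p ∈ S, ¬ Cov p n
        · left; right
          rw [hE3, mem_filter]
          exact ⟨hn1, b3⟩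
        · right
          push Not at b3
          obtain ⟨p, hp, m, hm1, hm2, hd⟩ := b3
          rw [hE5, mem_biUnion]
          refine ⟨p, hp, ?_⟩
          rw [mem_biUnion]
          refine ⟨m, by rw [mem_Icc]; omega, ?_⟩
          rw [hE4, mem_filter]
          exact ⟨hn1, b1, hodd, b2, hd, hrep⟩
    · left; left; left
      push Not at b1
      rw [hE1, mem_Icc]
      exact ⟨(mem_Icc.1 hn1).1, Nat.le_floor b1.le⟩
  have c1 : (E1.card : ℝ) ≤ N / L ^ U := by
    rw [hE1, Nat.card_Icc]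
    simp only [Nat.add_sub_cancel]
    exact Nat.floor_le (by positivity)
  have c5 : (E5.card : ℝ) ≤ N / L ^ U := by
    have d1 : ∀ p ∈ S, (((Icc 1 (p - 1)).biUnion (fun m => E4 p m)).card : ℝ) ≤ L ^ c * (N / L ^ (U + 2 * c)) := by
      intro p hp
      obtain ⟨hpF, hp11, hpL⟩ := hS p hp
      have d2 : (((Icc 1 (p - 1)).biUnion (fun m => E4 p m)).card : ℝ) ≤ ∑ m ∈ Icc 1 (p - 1), ((E4 p m).card : ℝ) := by
        exact_mod_cast card_biUnion_le
      have d3 : ∑ m ∈ Icc 1 (p - 1), ((E4 p m).card : ℝ) ≤ ∑ _m ∈ Icc 1 (p - 1), (N : ℝ) / L ^ (U + 2 * c) := by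
        apply sum_le_sum
        intro m hm
        rw [mem_Icc] at hm
        have d4 := hfam p m hpF hp11 (by rw [← hL]; exact hpL) hm.1 (by omega)
        rw [← hL] at d4
        exact d4
      refine (d2.trans d3).trans ?_
      rw [sum_const, Nat.card_Icc, nsmul_eq_mul]
      apply mul_le_mul_of_nonneg_right _ (by positivity)
      refine le_trans ?_ hpL
      have : p - 1 + 1 - 1 ≤ p := by omega
      exact_mod_cast this
    have d5 : (E5.card : ℝ) ≤ ∑ p ∈ S, (((Icc 1 (p - 1)).biUnion (fun m => E4 p m)).card : ℝ) := by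
      exact_mod_cast card_biUnion_le
    have d6 : (S.card : ℝ) ≤ L ^ c := by
      have d7 : S ⊆ Icc 1 ⌊L ^ c⌋₊ := by
        intro p hp
        obtain ⟨hpF, hp11, hpL⟩ := hS p hp
        rw [mem_Icc]
        exact ⟨hpF.1.one_le, Nat.le_floor hpL⟩
      have d8 := card_le_card d7
      rw [Nat.card_Icc] at d8
      have d9 : (S.card : ℝ) ≤ ⌊L ^ c⌋₊ := by
        have : S.card ≤ ⌊L ^ c⌋₊ := by omega
        exact_mod_cast this
      exact d9.trans (Nat.floor_le (by positivity))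
    refine d5.trans ((sum_le_sum d1).trans ?_)
    rw [sum_const, nsmul_eq_mul]
    calc (S.card : ℝ) * (L ^ c * (N / L ^ (U + 2 * c))) ≤ L ^ c * (L ^ c * (N / L ^ (U + 2 * c))) :=
          mul_le_mul_of_nonneg_right d6 (by positivity)
      _ = N / L ^ U := by
          rw [pow_add L U, two_mul, pow_add L c c]
          field_simp
  have hcard : (((Icc 1 N).filter (fun n : ℕ => Odd n ∧ ¬ Rep n)).card : ℝ) ≤ E1.card + E2.card + E3.card + E5.card := by
    have e1 := card_le_card hsub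
    have e2 := card_union_le (E1 ∪ E2 ∪ E3) E5
    have e3 := card_union_le (E1 ∪ E2) E3
    have e4 := card_union_le E1 E2
    have : ((Icc 1 N).filter (fun n : ℕ => Odd n ∧ ¬ Rep n)).card ≤ E1.card + E2.card + E3.card + E5.card := by omega
    exact_mod_cast this
  have hfin : 4 * ((N : ℝ) / L ^ U) ≤ N / L ^ A := by
    rw [hU, pow_add]
    have : 4 * ((N : ℝ) / (L ^ A * L ^ 2)) = (4 / L ^ 2) * (N / L ^ A) := by field_simp
    rw [this]
    calc 4 / L ^ 2 * ((N : ℝ) / L ^ A) ≤ 1 * (N / L ^ A) := by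
          apply mul_le_mul_of_nonneg_right _ (by positivity)
          rw [div_le_one (by positivity)]
          nlinarith
      _ = _ := one_mul _
  linarith

end Pool.Agent.H45.B9
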